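import Pool.Agent.Helper82.EN.Stmts

set_option autoImplicit false

/-! # ENCODING BY TM: basic lemmas on machines -/

namespace Pool.Agent.Helper82.EN

section
variable {Q : Type} (M : Mc Q) (c : Cf Q)

@[simp] theorem run_zero : M.run c 0 = c := rfl

theorem run_succ (t : ℕ) : M.run c (t + 1) = M.step (M.run c t) := by
  simp only [Mc.run, Function.iterate_succ_apply']

theorem run_add (s t : ℕ) : M.run c (s + t) = M.run (M.run c s) t := by
  induction t with
  | zero => rfl
  | succ t ih => rw [← Nat.add_assoc, run_succ, ih, run_succ]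

theorem run_one : M.run c 1 = M.step c := rfl

/-- a sequence of configurations which follows the machine -/
theorem run_of_step {c : ℕ → Cf Q} (h : ∀ t, c (t + 1) = M.step (c t)) (s t : ℕ) :
    c (s + t) = M.run (c s) t := by
  induction t with
  | zero => rfl
  | succ t ih => rw [← Nat.add_assoc, h, ih, run_succ]

theorem sign_abs (m : SignType) : |(m : ℤ)| ≤ 1 := by
  cases m <;> simp

theorem step_p : (M.step c).p = c.p + ((M.tr c.q (c.T c.p)).2.2.1 : ℤ) := rfl

theorem step_q : (M.step c).q = (M.tr c.q (c.T c.p)).1 := rfl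

theorem abs_step : |(M.step c).p - c.p| ≤ 1 := by
  rw [step_p, add_sub_cancel_left]
  exact sign_abs _

theorem step_T_ne {z : ℤ} (h : z ≠ c.p) : (M.step c).T z = c.T z := by
  simp [Mc.step, Function.update_of_ne h]

theorem step_T_self : (M.step c).T c.p = (M.tr c.q (c.T c.p)).2.1 := by
  simp [Mc.step]

/-- cells which are not visited keep their content -/
theorem run_T_eq (k : ℕ) (z : ℤ) (h : ∀ t < k, (M.run c t).p ≠ z) : (M.run c k).T z = c.T z := by
  induction k with
  | zero => rfl
  | succ k ih =>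
    rw [run_succ, step_T_ne _ _ (h k (Nat.lt_succ_self k)).symm, ih fun t ht => h t (by omega)]

theorem abs_run (s t : ℕ) (h : s ≤ t) : |(M.run c t).p - (M.run c s).p| ≤ (t : ℤ) - s := by
  induction t, h using Nat.le_induction with
  | base => simp
  | succ t h ih =>
    have h1 := abs_step M (M.run c t)
    rw [← run_succ] at h1
    have h2 : (M.run c (t + 1)).p - (M.run c s).p =
      ((M.run c (t + 1)).p - (M.run c t).p) + ((M.run c t).p - (M.run c s).p) := by ring
    rw [h2]
    push_cast
    calc _ ≤ |(M.run c (t + 1)).p - (M.run c t).p| + |(M.run c t).p - (M.run c s).p| :=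
          abs_add_le _ _
      _ ≤ _ := by linarith

/-- **Locality**: two configurations with the same state and the same content (shifted by `s`) on
the cells `[lo, hi)` behave in the same way as long as the head stays in `[lo, hi)`. -/
theorem loc {c c' : Cf Q} {s lo hi : ℤ} (hq : c'.q = c.q) (hp : c'.p = c.p + s)
    (hT : ∀ z, lo ≤ z → z < hi → c'.T (z + s) = c.T z) (k : ℕ)
    (hw : ∀ t < k, lo ≤ (M.run c t).p ∧ (M.run c t).p < hi) :
    (M.run c' k).q = (M.run c k).q ∧ (M.run c' k).p = (M.run c k).p + s ∧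
      ∀ z, lo ≤ z → z < hi → (M.run c' k).T (z + s) = (M.run c k).T z := by
  induction k with
  | zero => exact ⟨hq, hp, hT⟩
  | succ k ih =>
    obtain ⟨h1, h2, h3⟩ := ih fun t ht => hw t (by omega)
    have h4 := hw k (Nat.lt_succ_self k)
    have h5 : (M.run c' k).T (M.run c' k).p = (M.run c k).T (M.run c k).p := by
      rw [h2]
      exact h3 _ h4.1 h4.2
    rw [run_succ, run_succ]
    refine ⟨?_, ?_, fun z hz1 hz2 => ?_⟩
    · rw [step_q, step_q, h1, h5]
    · rw [step_p, step_p, h1, h5, h2]
      ring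
    · by_cases hz : z = (M.run c k).p
      · have e1 : z + s = (M.run c' k).p := by rw [h2, hz]
        rw [e1, step_T_self, hz, step_T_self, h1, h5]
      · have e1 : z + s ≠ (M.run c' k).p := by
          rw [h2]
          intro h
          exact hz (by linarith)
        rw [step_T_ne _ _ e1, step_T_ne _ _ hz]
        exact h3 z hz1 hz2

/-- locality for the printed symbols -/
theorem loc_out {c c' : Cf Q} {s lo hi : ℤ} (hq : c'.q = c.q) (hp : c'.p = c.p + s)
    (hT : ∀ z, lo ≤ z → z < hi → c'.T (z + s) = c.T z) (k : ℕ)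
    (hw : ∀ t < k, lo ≤ (M.run c t).p ∧ (M.run c t).p < hi) (t : ℕ) (ht : t < k) :
    M.out (M.run c' t) = M.out (M.run c t) := by
  obtain ⟨h1, h2, h3⟩ := loc M hq hp hT t fun u hu => hw u (by omega)
  have h4 := hw t ht
  have h5 : (M.run c' t).T (M.run c' t).p = (M.run c t).T (M.run c t).p := by
    rw [h2]
    exact h3 _ h4.1 h4.2
  simp only [Mc.out, h1, h5]

/-! ## Mirror -/

@[simp] theorem mir_mir : M.mir.mir = M := by
  cases M
  simp [Mc.mir]

@[simp] theorem cf_mir_mir : c.mir.mir = c := by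
  cases c
  simp [Cf.mir]

theorem out_mir : M.mir.out c.mir = M.out c := by
  simp [Mc.out, Mc.mir, Cf.mir]

theorem step_mir : M.mir.step c.mir = (M.step c).mir := by
  ext z
  · simp [Mc.step, Mc.mir, Cf.mir]
  · simp [Mc.step, Mc.mir, Cf.mir]
    cases (M.tr c.q (c.T c.p)).2.2.1 <;> simp <;> ring
  · simp only [Mc.step, Mc.mir, Cf.mir, neg_neg]
    by_cases h : z = -c.p
    · subst h
      simp
    · rw [Function.update_of_ne h, Function.update_of_ne (fun h' => h (by rw [← h', neg_neg]))]

theorem run_mir (t : ℕ) : M.mir.run c.mir t = (M.run c t).mir := by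
  induction t with
  | zero => rfl
  | succ t ih => rw [run_succ, ih, step_mir, run_succ]

end

namespace Pa

variable (P : Pa) {Q : Type} (M : Mc Q)

theorem rel_mir (a w : P.Wd) : P.Rel M.mir a w ↔ P.Rel M a w := by
  simp only [Rel, mir_mir]
  exact or_comm

theorem blk_mir (w : P.Wd) : P.Blk M.mir w ↔ P.Blk M w := by
  simp only [Blk, mir_mir]
  exact or_comm

theorem eb_mir (V : Fin (5 * P.d) → Fin 5) : P.Eb M.mir V ↔ P.Eb M V := by
  simp only [Eb, mir_mir]
  exact or_comm

theorem odeg_mir (a : P.Wd) : P.odeg M.mir a = P.odeg M a := by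
  classical
  have : ∀ w, P.Rel M.mir a w ↔ P.Rel M a w := fun w => P.rel_mir M a w
  unfold odeg
  rw [Finset.filter_congr fun w _ => this w]

theorem ideg_mir (a : P.Wd) : P.ideg M.mir a = P.ideg M a := by
  classical
  have : ∀ w, P.Rel M.mir w a ↔ P.Rel M w a := fun w => P.rel_mir M w a
  unfold ideg
  rw [Finset.filter_congr fun w _ => this w]

theorem gen_mir {Δ : ℕ} {w : Fin 3 → P.Wd} (h : P.Gen M Δ w) : P.Gen M.mir Δ w where
  g1 i j hj := by rw [eb_mir]; exact h.g1 i j hj
  g1' i x hx := by rw [eb_mir]; exact h.g1' i x hx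
  g2 i := by rw [odeg_mir, ideg_mir]; exact h.g2 i
  g3 s hs := by
    rw [ideg_mir] at hs
    simp only [rel_mir]
    exact h.g3 s hs
  g4 s hs := by
    rw [odeg_mir] at hs
    simp only [rel_mir]
    exact h.g4 s hs
  g5 := by rw [rel_mir]; exact h.g5
  g6 i := by rw [blk_mir]; exact h.g6 i
  g7 := h.g7

theorem good_mir {Δ k : ℕ} : P.good M.mir Δ k ↔ P.good M Δ k := by
  constructor
  · rintro ⟨h1, h2, h3, h4⟩
    refine ⟨h1, h2, ?_, h4⟩
    have := P.gen_mir M.mir h3
    rwa [mir_mir] at this
  · rintro ⟨h1, h2, h3, h4⟩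
    exact ⟨h1, h2, P.gen_mir M h3, h4⟩

theorem Run.mir {P : Pa} {M : Mc Q} {c : ℕ → Cf Q} {n : ℕ} (h : P.Run M c n) :
    P.Run M.mir (fun t => (c t).mir) n where
  step t := by rw [h.step, step_mir]
  outp i hi x hx := by rw [out_mir]; exact h.outp i hi x hx

end Pa

end Pool.Agent.Helper82.EN
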