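import Pool.Agent.Helper49.EN.XSide

set_option autoImplicit false

/-! # ENCODING BY TM: module CLV (the visited case is impossible) -/

namespace Pool.Agent.Helper82.EN

/-- the maxima behind a steady motion to the left -/
theorem clv_back {p : ℕ → ℤ} {κ A B a b : ℕ} (hp : ∀ t, |p (t + 1) - p t| ≤ 1)
    (hS : Stead p κ (-1) A B) (hA : A ≤ a) (hab : a < b) (hb : b < B)
    (hl : a + (60 * κ + 6) ≤ b) :
    (b : ℤ) - a ≤ 6 * (fm p a B - fm p b B) ∧ fm p a B - fm p b B ≤ (b : ℤ) - a := by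
  constructor
  · obtain ⟨t, t1, t2, t3⟩ := fm_att (p := p) hb
    have h1 : p a ≤ fm p a B := fm_le (le_refl a) (by omega)
    have h2 := hS b t (by omega) t1 t2
    have h3 := hS a b hA (by omega) hb
    rw [t3] at h2
    omega
  · obtain ⟨t, t1, t2, t3⟩ := fm_att (p := p) (show a < B by omega)
    rw [← t3]
    by_cases h4 : t < b
    · have h5 : p b ≤ fm p b B := fm_le (le_refl b) hb
      have h6 := (lip hp t b (by omega)).2
      omega
    · have h5 : p t ≤ fm p b B := fm_le (by omega) t2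
      omega

section
variable {Q : Type}

/-- front of the run at the beginning of the stage `i` -/
noncomputable def clv_xs (P : Pa) (c : ℕ → Cf Q) (n k i : ℕ) : ℤ :=
  fm (fun t => (c t).p) (P.S n (k - 13)) (n + P.tau i)

/-- rightmost cell visited from the stage `j` to the block `ν` -/
noncomputable def clv_ys (P : Pa) (c : ℕ → Cf Q) (n ν j : ℕ) : ℤ :=
  fm (fun t => (c t).p) (n + P.tau j) (P.S n (ν + 1))

/-- the stages of the blocks `k, k + 1, k + 2` -/
theorem xs_len {P : Pa} {n : ℕ} (hF : BF P n) {M : Mc Q} {c : ℕ → Cf Q} {k : ℕ}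
    (hrun : P.Run M c n) (hk : 14 ≤ k)
    (hst : Stead (fun t => (c t).p) P.kap 1 (P.S n (k - 13)) (P.S n (k + 3)))
    (i : ℕ) (h1 : P.nb * (k - 1) ≤ i) (h2 : i < P.nb * (k + 2)) :
    (P.ell (P.cls i) : ℤ) ≤ 6 * (clv_xs P c n k (i + 1) - clv_xs P c n k i) ∧
      clv_xs P c n k (i + 1) - clv_xs P c n k i ≤ P.ell (P.cls i) := by
  have e1 : P.S n (k - 13) = n + P.tau (P.nb * (k - 14)) := by
    rw [P.S_eq n (k - 13) (by omega)]
    rfl
  have e2 : P.S n (k + 3) = n + P.tau (P.nb * (k + 2)) := P.S_succ n (k + 2)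
  have h3 : P.nb * (k - 14) < P.nb * (k - 1) :=
    Nat.mul_lt_mul_of_pos_left (by omega) P.nb_pos
  have h4 := hF.lt (show P.nb * (k - 14) < i by omega)
  have h5 : P.tau (i + 1) ≤ P.tau (P.nb * (k + 2)) := P.tau_mono (by omega)
  have h6 := P.tau_succ i
  have h7 := hF.len i
  have h8 := hF.L1
  have h9 := clv_front (p := fun t => (c t).p) (path_unit hrun) hst
    (show P.S n (k - 13) < n + P.tau i by omega) (show n + P.tau i < n + P.tau (i + 1) by omega)
    (by omega) (by omega)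
  have h10 : (P.ell (P.cls i) : ℤ) = ((n + P.tau (i + 1) : ℕ) : ℤ) - ((n + P.tau i : ℕ) : ℤ) := by
    have : P.ell (P.cls i) = P.len i := rfl
    rw [this, h6]
    push_cast
    ring
  rw [h10]
  exact h9

theorem xs_reg {P : Pa} {n : ℕ} (hF : BF P n) {M : Mc Q} {c : ℕ → Cf Q} {k : ℕ}
    (hrun : P.Run M c n) (hk : 14 ≤ k) (z : ℤ) :
    Reg (fun t => (c t).p) (P.S n) k 1 z ↔
      clv_xs P c n k (P.nb * (k - 1)) < z ∧ z ≤ clv_xs P c n k (P.nb * (k + 2)) := by
  have e1 : P.S n (k - 13) = n + P.tau (P.nb * (k - 14)) := by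
    rw [P.S_eq n (k - 13) (by omega)]
    rfl
  have e2 : P.S n (k + 3) = n + P.tau (P.nb * (k + 2)) := P.S_succ n (k + 2)
  have e3 : P.S n k = n + P.tau (P.nb * (k - 1)) := P.S_eq n k (by omega)
  have h3 : P.nb * (k - 14) < P.nb * (k - 1) :=
    Nat.mul_lt_mul_of_pos_left (by omega) P.nb_pos
  have h4 : P.nb * (k - 1) < P.nb * (k + 2) :=
    Nat.mul_lt_mul_of_pos_left (by omega) P.nb_pos
  have h5 := hF.lt h3
  have h6 := hF.lt h4
  have h8 := hF.L1
  rw [reg_iff (path_unit hrun) (show P.S n (k - 13) < P.S n k by omega)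
    (show P.S n k < P.S n (k + 3) by omega)]
  unfold clv_xs
  rw [e2, e3]

/-- data of the visited case -/
structure VD (P : Pa) (M : Mc Q) (c : ℕ → Cf Q) (n k μ ν : ℕ) : Prop where
  F : BF P n
  run : P.Run M c n
  hk : 14 ≤ k
  kN : k + 2 ≤ P.N
  st : Stead (fun t => (c t).p) P.kap 1 (P.S n (k - 13)) (P.S n (k + 3))
  h1 : 1 ≤ μ
  h2 : μ < ν
  h3 : ν + 14 ≤ k
  sm : Stead (fun t => (c t).p) P.kap (-1) (P.S n μ) (P.S n (ν + 1))
  reg : ∀ z, Reg (fun t => (c t).p) (P.S n) k 1 z → ∃ u, P.S n (μ + 1) ≤ u ∧ u < P.S n ν ∧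
    (c u).p = z ∧ ∀ t, u < t → t < P.S n (k - 13) → (c t).p ≠ z

variable {P : Pa} {M : Mc Q} {c : ℕ → Cf Q} {n k μ ν : ℕ}

/-- comparison of the times -/
theorem vd_times (h : VD P M c n k μ ν) :
    P.S n μ ≤ P.S n (μ + 1) ∧ P.S n (μ + 1) = n + P.tau (P.nb * μ) ∧
    P.S n ν = n + P.tau (P.nb * (ν - 1)) ∧ P.S n ν < P.S n (ν + 1) ∧
    P.S n (ν + 1) ≤ P.S n (k - 13) ∧ P.S n (k - 13) < P.S n k ∧
    P.S n k = n + P.tau (P.nb * (k - 1)) ∧
    P.S n (k + 3) = n + P.tau (P.nb * (k + 2)) := by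
  obtain ⟨hF, hrun, hk, kN, st, h1, h2, h3, sm, reg⟩ := h
  have hm : ∀ a b, 1 ≤ a → a ≤ b → P.S n a ≤ P.S n b := fun a b ha hab => by
    rw [P.S_eq n a ha, P.S_eq n b (by omega)]
    have := P.tau_mono (show P.nb * (a - 1) ≤ P.nb * (b - 1) from
      Nat.mul_le_mul_left _ (by omega))
    omega
  have hl : ∀ a b, 1 ≤ a → a < b → P.S n a < P.S n b := fun a b ha hab => by
    rw [P.S_eq n a ha, P.S_eq n b (by omega)]
    have := hF.lt (show P.nb * (a - 1) < P.nb * (b - 1) from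
      Nat.mul_lt_mul_of_pos_left (by omega) P.nb_pos)
    have := hF.L1
    omega
  exact ⟨hm _ _ h1 (by omega), P.S_succ n μ, P.S_eq n ν (by omega), hl _ _ (by omega) (by omega),
    hm _ _ (by omega) (by omega), hl _ _ (by omega) (by omega), P.S_eq n k (by omega),
    P.S_succ n (k + 2)⟩

/-- the stage of the last visit of a cell of the region -/
theorem vd_stage (h : VD P M c n k μ ν) (z : ℤ)
    (hz : Reg (fun t => (c t).p) (P.S n) k 1 z) :
    ∃ j, P.nb * μ ≤ j ∧ j < P.nb * (ν - 1) ∧ clv_ys P c n ν (j + 1) < z ∧ z ≤ clv_ys P c n ν j := by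
  obtain ⟨t1, t2, t3, t4, t5, t6, t7, t8⟩ := vd_times h
  obtain ⟨u, u1, u2, u3, u4⟩ := h.reg z hz
  have h2 := h.h2
  have hp := path_unit h.run
  obtain ⟨j, j1, j2, j3, j4⟩ := stage_of (fun j => n + P.tau j) (P.nb * μ) (P.nb * (ν - 1)) u
    (Nat.mul_le_mul_left _ (by omega)) (by omega) (by omega)
  refine ⟨j, j1, j2, ?_, ?_⟩
  · by_contra hc
    rw [not_lt] at hc
    have h5 : P.tau (j + 1) ≤ P.tau (P.nb * (ν - 1)) := P.tau_mono (by omega)
    obtain ⟨t, a1, a2, a3⟩ := fm_att (p := fun t => (c t).p)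
      (show n + P.tau (j + 1) < P.S n (ν + 1) by omega)
    have a4 : z ≤ (c t).p := by
      have : clv_ys P c n ν (j + 1) = (c t).p := a3.symm
      rw [← this]
      exact hc
    have a5 : (c (P.S n (k - 13))).p < z := by
      have := hz.1 (P.S n (k - 13)) (le_refl _) t6
      simp only at this
      linarith
    obtain ⟨v, v1, v2, v3⟩ := ivt_down (p := fun t => (c t).p) hp t (P.S n (k - 13)) (by omega) z
      a4 (le_of_lt a5)
    have v4 : v ≠ P.S n (k - 13) := by
      rintro rfl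
      omega
    exact u4 v (by omega) (by omega) v3
  · rw [← u3]
    exact fm_le (p := fun t => (c t).p) j3 (by omega)

theorem vd_anti (h : VD P M c n k μ ν) (i j : ℕ) (hij : i ≤ j) (hj : j ≤ P.nb * (ν - 1)) :
    clv_ys P c n ν j ≤ clv_ys P c n ν i := by
  obtain ⟨t1, t2, t3, t4, t5, t6, t7, t8⟩ := vd_times h
  have h5 : P.tau j ≤ P.tau (P.nb * (ν - 1)) := P.tau_mono hj
  have h6 : P.tau i ≤ P.tau j := P.tau_mono hij
  exact fm_anti_left (by omega) (by omega)

theorem ys_len (h : VD P M c n k μ ν) (j : ℕ) (h1 : P.nb * μ ≤ j) (h2 : j < P.nb * (ν - 1)) :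
    (P.ell (P.cls j) : ℤ) ≤ 6 * (clv_ys P c n ν j - clv_ys P c n ν (j + 1)) ∧
      clv_ys P c n ν j - clv_ys P c n ν (j + 1) ≤ P.ell (P.cls j) := by
  obtain ⟨t1, t2, t3, t4, t5, t6, t7, t8⟩ := vd_times h
  have h5 : P.tau (j + 1) ≤ P.tau (P.nb * (ν - 1)) := P.tau_mono (by omega)
  have h4 : P.tau (P.nb * μ) ≤ P.tau j := P.tau_mono h1
  have h6 := P.tau_succ j
  have h7 := h.F.len j
  have h8 := h.F.L1
  have h9 := clv_back (p := fun t => (c t).p) (path_unit h.run) h.sm
    (show P.S n μ ≤ n + P.tau j by omega) (show n + P.tau j < n + P.tau (j + 1) by omega)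
    (by omega) (by omega)
  have h10 : (P.ell (P.cls j) : ℤ) = ((n + P.tau (j + 1) : ℕ) : ℤ) - ((n + P.tau j : ℕ) : ℤ) := by
    have : P.ell (P.cls j) = P.len j := rfl
    rw [this, h6]
    push_cast
    ring
  rw [h10]
  exact h9

/-- a large overlap gives a relation between the seeds -/
theorem vd_rel (hR : ST_READ) (hL : ST_LAID) (h : VD P M c n k μ ν) (i j : ℕ)
    (i1 : P.nb * (k - 1) ≤ i) (i2 : i < P.nb * (k + 2)) (j1 : P.nb * μ ≤ j)
    (j2 : j < P.nb * (ν - 1))
    (hov : (P.bet : ℤ) ≤ min (clv_xs P c n k (i + 1)) (clv_ys P c n ν j) -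
      max (clv_xs P c n k i) (clv_ys P c n ν (j + 1))) :
    P.Rel M (P.seed j) (P.seed i) := by
  obtain ⟨t1, t2, t3, t4, t5, t6, t7, t8⟩ := vd_times h
  have hp := path_unit h.run
  have hbet : P.bet = P.D + 2 * P.kap + 2 := rfl
  have hD := h.F.D1
  have hh2 := h.h2
  have hh3 := h.h3
  have hkN := h.kN
  have hk := h.hk
  have hLL := h.F.L1
  obtain ⟨u, hu⟩ : ∃ u : ℤ, u = max (clv_xs P c n k i) (clv_ys P c n ν (j + 1)) + P.kap + 2 := ⟨_, rfl⟩
  have m1 := le_max_left (clv_xs P c n k i) (clv_ys P c n ν (j + 1))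
  have m2 := le_max_right (clv_xs P c n k i) (clv_ys P c n ν (j + 1))
  have m3 := min_le_left (clv_xs P c n k (i + 1)) (clv_ys P c n ν j)
  have m4 := min_le_right (clv_xs P c n k (i + 1)) (clv_ys P c n ν j)
  have u1 : clv_xs P c n k i < u - P.kap - 1 := by omega
  have u2 : clv_ys P c n ν (j + 1) < u - P.kap - 1 := by omega
  have u3 : u + P.D + P.kap ≤ clv_xs P c n k (i + 1) := by omega
  have u4 : u + P.D + P.kap ≤ clv_ys P c n ν j := by omega
  -- times
  have hi1 : P.tau (P.nb * (k - 1)) ≤ P.tau i := P.tau_mono i1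
  have hi2 : P.tau (i + 1) ≤ P.tau (P.nb * (k + 2)) := P.tau_mono (by omega)
  have hi3 := P.tau_succ i
  have hi4 := h.F.len i
  have hj1 : P.tau (P.nb * μ) ≤ P.tau j := P.tau_mono j1
  have hj2 : P.tau (j + 1) ≤ P.tau (P.nb * (ν - 1)) := P.tau_mono (by omega)
  have hj3 := P.tau_succ j
  have hj4 := h.F.len j
  have hiN : i < P.Nst := lt_of_lt_of_le i2 (Nat.mul_le_mul_left _ hkN)
  have hjN : j < P.Nst := lt_of_lt_of_le j2 (Nat.mul_le_mul_left _ (by omega))
  -- cells of the region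
  have hx1 : clv_xs P c n k (P.nb * (k - 1)) ≤ clv_xs P c n k i :=
    fm_mono_right (by omega) (by omega)
  have hx2 : clv_xs P c n k (i + 1) ≤ clv_xs P c n k (P.nb * (k + 2)) :=
    fm_mono_right (by omega) (by omega)
  have hreg : ∀ z : ℤ, u - P.kap - 1 ≤ z → z ≤ u + P.D + P.kap →
      Reg (fun t => (c t).p) (P.S n) k 1 z := fun z z1 z2 =>
    (xs_reg h.F h.run hk z).2 ⟨by omega, by omega⟩
  -- the reading pass
  have hread := hR Q P M c (P.S n (k - 13)) (n + P.tau i) (n + P.tau (i + 1)) (P.S n (k + 3)) u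
    (P.seed i) h.run.step hD (by omega) (by omega) h.st (perOut_stage h.run i hiN)
    (fun t a1 a2 => by
      have : (c t).p ≤ clv_xs P c n k i := fm_le (p := fun t => (c t).p) a1 a2
      omega)
    (by
      obtain ⟨t, a1, a2, a3⟩ := fm_att (p := fun t => (c t).p)
        (show P.S n (k - 13) < n + P.tau (i + 1) by omega)
      have a4 : (c t).p = clv_xs P c n k (i + 1) := a3
      refine ⟨t, ?_, a2, by omega⟩
      by_contra a5
      have : (c t).p ≤ clv_xs P c n k i := fm_le (p := fun t => (c t).p) a1 (by omega)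
      omega)
  -- the content
  have hlaid := hL Q P M c (P.S n μ) (n + P.tau j) (n + P.tau (j + 1)) (P.S n (ν + 1))
    (P.S n (k - 13)) u (P.seed j) h.run.step hD (by omega) (by omega) t5 h.sm
    (perOut_stage h.run j hjN)
    (by
      obtain ⟨t, a1, a2, a3⟩ := fm_att (p := fun t => (c t).p)
        (show n + P.tau j < P.S n (ν + 1) by omega)
      have a4 : (c t).p = clv_ys P c n ν j := a3
      exact ⟨t, a1, a2, by omega⟩)
    (by
      obtain ⟨v, v1, v2, v3, v4⟩ := h.reg (u - P.kap - 1) (hreg _ (by omega) (by omega))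
      refine ⟨v, by omega, ?_, by omega⟩
      by_contra v5
      have : (c v).p ≤ clv_ys P c n ν (j + 1) := fm_le (p := fun t => (c t).p) (by omega) (by omega)
      omega)
    (fun t a1 a2 x x1 x2 => by
      obtain ⟨v, v1, v2, v3, v4⟩ := h.reg (u + x) (hreg _ (by omega) (by omega))
      exact v4 t (by omega) a2)
  obtain ⟨c', c1, c2, c3, c4⟩ := hread
  refine Or.inl ⟨c', c2, c3, Or.inr ?_⟩
  have e : (fun x : Fin P.D => c'.T (c'.p + ((P.D : ℤ) - 1 - x))) =
      (fun x : Fin P.D => (c (P.S n (k - 13))).T (u + ((P.D : ℤ) - 1 - x))) := by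
    funext x
    have := x.2
    rw [c1]
    exact c4 _ (by omega) (by omega)
  rw [e]
  exact hlaid

end

/-- **Module CLV.** -/
theorem st_CLV (hR : ST_READ) (hL : ST_LAID) (hMa : ST_MATCH) (hDec : ST_DEC) (hB : ST_BLK) :
    ST_CLV := by
  intro Q P K Δ n k M c hO hnK hrun hk hkN hgood hst hcase
  have hF := bf_of hB hO hnK
  obtain ⟨μ, ν, h2, h3, hgm, hsm, hreg⟩ := hcase
  have h1 : 1 ≤ μ := (hgm μ (le_refl _) (by omega)).1
  have h : VD P M c n k μ ν := ⟨hF, hrun, hk, hkN, hst, h1, h2, h3, hsm, hreg⟩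
  obtain ⟨t1, t2, t3, t4, t5, t6, t7, t8⟩ := vd_times h
  have hnb := P.nb_pos
  have hnbe : P.nb = 3 * (4 * P.D + 3) := rfl
  have hD := hF.D1
  -- the arithmetic of the stage numbers
  obtain ⟨b, hb⟩ : ∃ b, b = P.nb * (k - 1) := ⟨_, rfl⟩
  have hb1 : P.nb * k = b + P.nb := by
    rw [hb, ← Nat.mul_succ]
    congr 1
    omega
  have hb2 : P.nb * (k + 2) = b + 3 * P.nb := by
    rw [Nat.mul_add, hb1]
    ring
  have hb3 : P.nb * (k - 14) + 13 * P.nb = b := by
    rw [hb, mul_comm 13, ← Nat.mul_add]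
    congr 1
    omega
  -- lengths
  have hxl := xs_len hF hrun hk hst
  have hyl := ys_len h
  have hlam0 : (0 : ℤ) < P.Lam := by have := hF.L1; omega
  have hell : ∀ i, (0 : ℤ) < P.ell (P.cls i) := fun i => by
    have h4 : P.ell (P.cls i) = P.len i := rfl
    have := hF.len i
    rw [h4]
    omega
  have hx01 := hxl (P.nb * (k - 1)) (le_refl _) (by omega)
  have hx02 : clv_xs P c n k (P.nb * (k - 1) + 1) ≤ clv_xs P c n k (P.nb * (k + 2)) := by
    have h4 : P.tau (P.nb * (k - 1) + 1) ≤ P.tau (P.nb * (k + 2)) := P.tau_mono (by omega)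
    have h5 := P.tau_succ (P.nb * (k - 1))
    exact fm_mono_right (by omega) (by omega)
  have hx03 : clv_xs P c n k (P.nb * (k - 1)) < clv_xs P c n k (P.nb * (k + 2)) := by
    have := hell (P.nb * (k - 1))
    omega
  -- the stages of the first and the last cell of the region
  obtain ⟨jh, jh1, jh2, jh3, jh4⟩ := vd_stage h (clv_xs P c n k (P.nb * (k - 1)) + 1)
    ((xs_reg hF hrun hk _).2 ⟨by omega, by omega⟩)
  obtain ⟨jl, jl1, jl2, jl3, jl4⟩ := vd_stage h (clv_xs P c n k (P.nb * (k + 2)))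
    ((xs_reg hF hrun hk _).2 ⟨by omega, by omega⟩)
  have hlh : jl ≤ jh := by
    by_contra hc
    have := vd_anti h (jh + 1) jl (by omega) (by omega)
    omega
  -- the relations
  have hrel := vd_rel hR hL h
  have hgk : ∀ j, k ≤ j → j ≤ k + 2 → P.good M Δ j := fun j a1 a2 => hgood j (by omega) a2
  have hgs : ∀ j, μ + 1 ≤ j → j ≤ ν - 1 → P.good M Δ j := fun j a1 a2 =>
    hgm j (by omega) (by omega)
  have hseedi : ∀ i, P.nb * (k - 1) ≤ i → i < P.nb * (k + 2) →
      P.seed i = P.sw k ⟨i % 3, Nat.mod_lt _ (by norm_num)⟩ := fun i a1 a2 =>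
    seed_stage hF (by omega) hgk i a1 a2
  have hseedj : ∀ j, P.nb * μ ≤ j → j < P.nb * (ν - 1) →
      P.seed j = P.sw (μ + 1) ⟨j % 3, Nat.mod_lt _ (by norm_num)⟩ := fun j a1 a2 =>
    seed_stage hF (by omega) hgs j (by simpa using a1) a2
  have hGk : P.Gen M Δ (P.sw k) := (hgk k (le_refl _) (by omega)).2.2.1
  have hμν : μ + 1 ≤ ν - 1 := by
    by_contra hc
    have : P.nb * (ν - 1) ≤ P.nb * μ := Nat.mul_le_mul_left _ (by omega)
    omega
  have hGs : P.Gen M Δ (P.sw (μ + 1)) := (hgs (μ + 1) (le_refl _) hμν).2.2.1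
  have hkn : k < P.N := by omega
  have hb0 : b = P.nb * (k - 1) := hb
  -- the matching
  have hMM := hMa P.Lam P.bet (fun x => (P.ell x : ℤ)) (fun i => clv_xs P c n k i.toNat)
    (fun j => clv_ys P c n ν (1 - j).toNat) (fun i => P.cls i.toNat) (fun j => P.cls (-j).toNat)
    (b : ℤ) ((b : ℤ) + 3 * P.nb - 1) (-(jh : ℤ)) (-(jl : ℤ)) 0 0
    (by exact_mod_cast hF.b0) (by exact_mod_cast hF.Lb) (by simp only [P.ell_zero])
    (fun c₁ c₂ a1 a2 => P.ell_growth hD c₁ c₂ a1 a2) (fun i => P.cls_le _) (fun j => P.cls_le _)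
    (by
      intro i a1 a2
      obtain ⟨i', rfl⟩ := Int.eq_ofNat_of_zero_le (show 0 ≤ i by omega)
      simp only [Int.toNat_natCast, P.cls_ne]
      omega)
    (by
      intro j a1 a2
      obtain ⟨j', hj'⟩ := Int.eq_ofNat_of_zero_le (show 0 ≤ -j by omega)
      have e1 : (-j).toNat = j' := by omega
      simp only [e1, P.cls_ne]
      omega)
    (by
      intro i a1 a2
      obtain ⟨i', rfl⟩ := Int.eq_ofNat_of_zero_le (show 0 ≤ i by omega)
      have e1 : ((i' : ℤ) + 1).toNat = i' + 1 := by omega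
      simp only [Int.toNat_natCast, e1]
      exact hxl i' (by omega) (by omega))
    (by
      intro j a1 a2
      obtain ⟨j', hj'⟩ := Int.eq_ofNat_of_zero_le (show 0 ≤ -j by omega)
      have e1 : (1 - j).toNat = j' + 1 := by omega
      have e2 : (1 - (j + 1)).toNat = j' := by omega
      simp only [e1, e2]
      exact vd_anti h j' (j' + 1) (by omega) (by omega))
    (by
      intro j a1 a2 _ _
      obtain ⟨j', hj'⟩ := Int.eq_ofNat_of_zero_le (show 0 ≤ -j by omega)
      have e1 : (1 - j).toNat = j' + 1 := by omega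
      have e2 : (1 - (j + 1)).toNat = j' := by omega
      have e3 : (-j).toNat = j' := by omega
      simp only [e1, e2, e3]
      exact hyl j' (by omega) (by omega))
    (by
      have e1 : (1 - (-(jh : ℤ))).toNat = jh + 1 := by omega
      simp only [Int.toNat_natCast, e1, hb]
      omega)
    (by
      have e1 : (1 - (-(jl : ℤ) + 1)).toNat = jl := by omega
      have e2 : ((b : ℤ) + 3 * P.nb - 1 + 1).toNat = P.nb * (k + 2) := by
        rw [hb2]
        omega
      simp only [e1, e2]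
      exact jl4)
    (by omega)
    (by
      intro i j a1 a2 a3 a4 hall
      obtain ⟨i', rfl⟩ := Int.eq_ofNat_of_zero_le (show 0 ≤ i by omega)
      obtain ⟨j', hj'⟩ := Int.eq_ofNat_of_zero_le (show 0 ≤ -j by omega)
      have e1 : (1 - j).toNat = j' + 1 := by omega
      have e2 : (1 - (j + 1)).toNat = j' := by omega
      have hr : ∀ e ≤ 2, P.Rel M (P.seed j') (P.seed (i' + e)) := fun e he => by
        have h4 := hall (e : ℤ) (by omega) (by omega)
        have e3 : ((i' : ℤ) + (e : ℤ)).toNat = i' + e := by omega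
        have e4 : ((i' : ℤ) + (e : ℤ) + 1).toNat = i' + e + 1 := by omega
        simp only [e1, e2, e3, e4] at h4
        exact hrel (i' + e) j' (by omega) (by omega) (by omega) (by omega) h4
      have hodeg : P.odeg M (P.seed j') ≤ Δ := by
        rw [hseedj j' (by omega) (by omega)]
        exact (hGs.g2 _).1
      exact hGk.g4 (P.seed j') hodeg fun r =>
        seed_three hF (by omega) hgk i' (by omega) (by omega)
          (fun w => P.Rel M (P.seed j') w) hr r)
    (by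
      intro i j a1 a2 a3 a4 hall
      obtain ⟨i', rfl⟩ := Int.eq_ofNat_of_zero_le (show 0 ≤ i by omega)
      obtain ⟨j', hj'⟩ := Int.eq_ofNat_of_zero_le (show 0 ≤ -j by omega)
      have e5 : ((i' : ℤ) + 1).toNat = i' + 1 := by omega
      have hr : ∀ e ≤ 2, P.Rel M (P.seed (j' - 2 + e)) (P.seed i') := fun e he => by
        have h4 := hall ((2 - e : ℕ) : ℤ) (by omega) (by omega)
        have e3 : (1 - (j + ((2 - e : ℕ) : ℤ) + 1)).toNat = j' - 2 + e := by omega
        have e4 : (1 - (j + ((2 - e : ℕ) : ℤ))).toNat = j' - 2 + e + 1 := by omega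
        simp only [e3, e4, e5, Int.toNat_natCast] at h4
        exact hrel i' (j' - 2 + e) (by omega) (by omega) (by omega) (by omega) h4
      have hideg : P.ideg M (P.seed i') ≤ Δ := by
        rw [hseedi i' (by omega) (by omega)]
        exact (hGk.g2 _).2
      exact hGs.g3 (P.seed i') hideg fun r =>
        seed_three hF (by omega) hgs (j' - 2) (by simp only [Nat.add_sub_cancel]; omega) (by omega)
          (fun w => P.Rel M w (P.seed i')) hr r)
    ((b + P.nb : ℕ) : ℤ) (by omega)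
    (by
      simp only [Int.toNat_natCast]
      rw [← hb1, P.cls_nb]
      norm_num)
  obtain ⟨j, hj⟩ := hMM
  obtain ⟨g1, g2, g3, -⟩ := hj 0 (le_refl _) (by push_cast; omega)
  obtain ⟨g4, g5, g6, -⟩ := hj 1 (by norm_num) (by push_cast; omega)
  obtain ⟨j', hj'⟩ := Int.eq_ofNat_of_zero_le (show 0 ≤ -j by omega)
  have e1 : (-(j + 3 * 0)).toNat = j' := by omega
  have e2 : (-(j + 3 * 1)).toNat = j' - 3 := by omega
  have e3 : (((b + P.nb : ℕ) : ℤ) + 3 * 0).toNat = P.nb * k := by rw [hb1]; omega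
  have e4 : (((b + P.nb : ℕ) : ℤ) + 3 * 1).toNat = P.nb * k + 3 := by rw [hb1]; omega
  simp only [e1, e3] at g3
  simp only [e2, e4] at g6
  have hjN : j' / P.nb < P.N := by
    have h4 : j' / P.nb < ν - 1 := (Nat.div_lt_iff_lt_mul hnb).2 (by rw [mul_comm]; omega)
    omega
  exact (hDec P hD k j' hkn hjN g3.symm).2 (by omega) g6.symm

end Pool.Agent.Helper82.EN
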