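import Pool.Agent.Helper82.EN.AllMin
import Pool.Agent.Helper82.EN.CLV

set_option autoImplicit false

namespace Pool.Agent.Helper82.EN

theorem en_all : ST_FIN :=
  en_all_of (st_CLV st_READ st_LAID st_MATCH st_DEC st_BLK)

end Pool.Agent.Helper82.EN
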