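import Pool.Agent.Helper82.EN.Basic

set_option autoImplicit false

namespace Pool.Agent.Helper82.EN

open Finset

theorem aut_per {Q : Type} [Fintype Q] {K L A B : ℕ} {Y : ℕ → Fin 3} {qq : ℕ → Q} (hL : 1 ≤ L)
    (hA : L ≤ A) (hQ : Fintype.card Q ≤ K)
    (hst : ∀ t t', A ≤ t → t < B → A ≤ t' → t' < B → qq t = qq t' → Y (t - L) = Y (t' - L) →
      qq (t + 1) = qq (t' + 1) ∧ Y t = Y t') :
    ∃ t₁ P₀, A ≤ t₁ ∧ 1 ≤ P₀ ∧ t₁ + P₀ ≤ A + K * 3 ^ L ∧
      ∀ z, t₁ ≤ z → z + P₀ < B → Y z = Y (z + P₀) := by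
  classical
  set σ : ℕ → Q × (Fin L → Fin 3) := fun t => (qq t, fun x => Y (t - L + x)) with hσ
  have hstep : ∀ t t', A ≤ t → t < B → A ≤ t' → t' < B → σ t = σ t' → σ (t + 1) = σ (t' + 1) := by
    intro t t' h1 h2 h3 h4 h5
    have e1 : qq t = qq t' := congrArg Prod.fst h5
    have e2 : ∀ x : Fin L, Y (t - L + x) = Y (t' - L + x) := fun x =>
      congrFun (congrArg Prod.snd h5) x
    have e3 : Y (t - L) = Y (t' - L) := by simpa using e2 ⟨0, hL⟩
    obtain ⟨e4, e5⟩ := hst t t' h1 h2 h3 h4 e1 e3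
    refine Prod.ext e4 (funext fun x => ?_)
    show Y (t + 1 - L + x) = Y (t' + 1 - L + x)
    by_cases hx : (x : ℕ) + 1 < L
    · have := e2 ⟨x + 1, hx⟩
      have r1 : t + 1 - L + x = t - L + (x + 1) := by omega
      have r2 : t' + 1 - L + x = t' - L + (x + 1) := by omega
      rw [r1, r2]
      exact this
    · have hx2 := x.2
      have r1 : t + 1 - L + x = t := by omega
      have r2 : t' + 1 - L + x = t' := by omega
      rw [r1, r2]
      exact e5
  obtain ⟨i, j, hij, hσij⟩ := Fintype.exists_ne_map_eq_of_card_lt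
    (fun i : Fin (K * 3 ^ L + 1) => σ (A + i)) (by
      rw [Fintype.card_prod, Fintype.card_fun, Fintype.card_fin, Fintype.card_fin, Fintype.card_fin]
      have := Nat.mul_le_mul_right (3 ^ L) hQ
      omega)
  have key : ∀ i j : ℕ, i < j → j ≤ K * 3 ^ L → σ (A + i) = σ (A + j) →
      ∃ t₁ P₀, A ≤ t₁ ∧ 1 ≤ P₀ ∧ t₁ + P₀ ≤ A + K * 3 ^ L ∧
      ∀ z, t₁ ≤ z → z + P₀ < B → Y z = Y (z + P₀) := by
    intro i j hij hj hs
    refine ⟨A + i, j - i, by omega, by omega, by omega, fun z hz hz2 => ?_⟩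
    have hall : ∀ z, A + i ≤ z → z + (j - i) ≤ B → σ z = σ (z + (j - i)) := by
      intro z hz
      induction z, hz using Nat.le_induction with
      | base =>
        intro _
        rw [hs]
        congr 1
        omega
      | succ z hz ih =>
        intro hz2
        have := hstep z (z + (j - i)) (by omega) (by omega) (by omega) (by omega) (ih (by omega))
        rw [this]
        congr 1
        omega
    have h5 := hall z hz (by omega)
    have e1 : qq z = qq (z + (j - i)) := congrArg Prod.fst h5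
    have e2 : Y (z - L + 0) = Y (z + (j - i) - L + 0) :=
      congrFun (congrArg Prod.snd h5) (⟨0, hL⟩ : Fin L)
    exact (hst z (z + (j - i)) (by omega) (by omega) (by omega) (by omega) e1 (by simpa using e2)).2
  rcases lt_or_gt_of_ne (fun h => hij (Fin.ext h) : (i : ℕ) ≠ j) with h | h
  · exact key i j h (by have := j.2; omega) hσij
  · exact key j i h (by have := i.2; omega) hσij.symm

theorem aut_iter {Y : ℕ → Fin 3} {t₁ P₀ B : ℕ}
    (h : ∀ z, t₁ ≤ z → z + P₀ < B → Y z = Y (z + P₀)) (m : ℕ) :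
    ∀ z, t₁ ≤ z → z + m * P₀ < B → Y z = Y (z + m * P₀) := by
  induction m with
  | zero => intro z _ _; simp
  | succ m ih =>
    intro z hz hz2
    have e : z + (m + 1) * P₀ = z + m * P₀ + P₀ := by ring
    rw [e] at hz2 ⊢
    rw [ih z hz (by omega)]
    exact h _ (by omega) hz2

theorem em_inj {a b : Fin 3} (h : em a = em b) : a = b := by
  have := congrArg Fin.val h
  simp only [em] at this
  exact Fin.ext (by omega)

namespace Pa

variable (P : Pa)

theorem aut_nb : 3 * 3 ≤ P.nb := by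
  unfold nb
  omega

theorem aut_cls (m : ℕ) : P.cls (P.nb * m) = 4 := by
  have h1 : P.nb * m % 3 = 0 := by
    have : P.nb * m = 3 * ((4 * P.D + 3) * m) := by unfold nb; ring
    rw [this]
    exact Nat.mul_mod_right 3 _
  have h2 : P.nb * m / 3 = (4 * P.D + 3) * m := by
    have : P.nb * m = 3 * ((4 * P.D + 3) * m) := by unfold nb; ring
    rw [this]
    exact Nat.mul_div_cancel_left _ (by norm_num)
  rw [cls, if_pos h1, h2, code, if_pos (Nat.mul_mod_right _ _)]

theorem aut_len (m : ℕ) : P.len (P.nb * m) = P.ell 4 := by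
  rw [len, aut_cls]

theorem aut_mod (m : ℕ) : (P.nb * m + 1) % 3 = 1 := by
  have : P.nb * m = 3 * ((4 * P.D + 3) * m) := by unfold nb; ring
  rw [this]
  omega

theorem aut_mod' (m : ℕ) : P.nb * m % 3 = 0 := by
  have : P.nb * m = 3 * ((4 * P.D + 3) * m) := by unfold nb; ring
  rw [this]
  omega

theorem aut_len' (m : ℕ) : P.len (P.nb * m + 1) = P.Lam := by
  rw [len, cls, if_neg (by rw [aut_mod]; norm_num), ell, if_pos rfl]

theorem aut_seed (m : ℕ) : P.seed (P.nb * m) = P.wd m 1 := by
  have h := P.aut_nb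
  rw [seed, aut_mod', Nat.mul_div_cancel_left _ (by omega)]

theorem aut_seed' (m : ℕ) : P.seed (P.nb * m + 1) = P.wd m 2 := by
  have h := P.aut_nb
  rw [seed, aut_mod]
  congr 1
  rw [Nat.mul_add_div (by omega), Nat.div_eq_of_lt (by omega), add_zero]

theorem aut_tau (i : ℕ) : P.tau (i + 1) = P.tau i + P.len i := by
  rw [tau, tau, sum_range_succ]

end Pa

theorem st_AUT (hBL : ST_BLK) : ST_AUT := by
  intro Q _ P K Δ n j M c hOk hcard hn hSit hgood hdel hpure
  obtain ⟨hS0, hS1, hSS, hlen, -, -⟩ := hBL P K Δ n hOk hn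
  have hunit : ∀ t, |(c (t + 1)).p - (c t).p| ≤ 1 := by
    intro t
    rw [hSit.step]
    exact abs_step M _
  obtain ⟨hj1, hjN, hgen, -⟩ := hgood
  have hD : 1 ≤ P.D := by
    have := hOk.hdD; have := hOk.hd; omega
  have hnb := P.aut_nb
  obtain ⟨m, rfl⟩ : ∃ m, j = m + 1 := ⟨j - 1, by omega⟩
  set T := P.S n (m + 1) with hT
  have hTt : T = n + P.tau (P.nb * m) := by
    rw [hT, Pa.S, if_neg (by omega), Nat.add_sub_cancel]
  have hT2 : P.S n (m + 1 + 1) = n + P.tau (P.nb * (m + 1)) := by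
    rw [Pa.S, if_neg (by omega), Nat.add_sub_cancel]
  have ht1 : P.tau (P.nb * m + 1) = P.tau (P.nb * m) + P.ell 4 := by
    rw [P.aut_tau, P.aut_len]
  have ht2 : P.tau (P.nb * m + 2) = P.tau (P.nb * m) + P.ell 4 + P.Lam := by
    rw [P.aut_tau (P.nb * m + 1), ht1, P.aut_len']
  have htm : ∀ a b, a ≤ b → P.tau a ≤ P.tau b := fun a b hab =>
    monotone_nat_of_le_succ (fun i => by rw [P.aut_tau]; omega) hab
  have hend : T + P.ell 4 + P.Lam ≤ P.S n (m + 1 + 1) := by
    rw [hT2, hTt]
    have := htm (P.nb * m + 2) (P.nb * (m + 1)) (by rw [Nat.mul_succ]; omega)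
    omega
  have hst0 : P.nb * m < P.Nst := by
    unfold Pa.Nst
    exact Nat.mul_lt_mul_of_pos_left (by omega) (by omega)
  have hst1 : P.nb * m + 1 < P.Nst := by
    unfold Pa.Nst
    have : P.nb * (m + 1) ≤ P.nb * P.N := Nat.mul_le_mul_left _ (by omega)
    rw [Nat.mul_succ] at this
    omega
  have hlam := hOk.hlam
  have hbet : P.D ≤ P.bet := by unfold Pa.bet; omega
  have hell : P.ell 4 = 100000000 * (P.D * P.Lam) := by simp [Pa.ell]
  have hellL : 100000000 * P.Lam ≤ P.ell 4 := by
    rw [hell]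
    exact Nat.mul_le_mul_left _ (Nat.le_mul_of_pos_left _ (by omega))
  have hdvd : P.D ∣ P.ell 4 := by
    rw [hell]
    exact ⟨100000000 * P.Lam, by ring⟩
  -- the delay
  have hlag := hSit.lag T (by rw [hTt]; omega)
  obtain ⟨L, hL⟩ : ∃ L : ℕ, (T : ℤ) - (c T).p = L := ⟨((T : ℤ) - (c T).p).toNat, by omega⟩
  have hL1 : 1 ≤ L := by omega
  have hL3 : L ≤ 3 * P.Lam := by omega
  have hp : ∀ t, T ≤ t → t ≤ P.S n (m + 1 + 1) → (c t).p = t - L := by
    intro t ht
    induction t, ht using Nat.le_induction with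
    | base => intro _; omega
    | succ t ht ih =>
      intro h2
      rw [hpure t ht (by omega), ih (by omega)]
      push_cast
      ring
  have hple : ∀ t : ℕ, (c t).p ≤ t := by
    intro t
    induction t with
    | zero => rw [hSit.p0]; simp
    | succ t ih =>
      have := (abs_le.1 (hunit t)).2
      push_cast
      linarith
  have hrun : ∀ s t, c (s + t) = M.run (c s) t := fun s t => run_of_step M hSit.step s t
  -- cells which are not visited yet
  have hcell : ∀ t, T ≤ t → t ≤ P.S n (m + 1 + 1) → ∀ z : ℤ, (T : ℤ) ≤ z → (t : ℤ) - L ≤ z →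
      (c t).T z = (c 0).T z := by
    intro t ht ht2 z hz1 hz2
    have e : c t = M.run (c 0) t := by rw [← hrun, Nat.zero_add]
    rw [e]
    refine run_T_eq M (c 0) t z fun u hu => ?_
    rw [← hrun, Nat.zero_add]
    intro h
    rcases Nat.lt_or_ge u T with h1 | h1
    · have := hple u
      omega
    · have := hp u h1 (by omega)
      omega
  -- letters
  set a := P.wd m 1 with ha
  set b := P.wd m 2 with hb
  have hla : ∀ x < P.ell 4, P.letter (P.nb * m) x = em (a ⟨x % P.D, Nat.mod_lt _ hD⟩) := by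
    intro x _
    rw [Pa.letter, dif_pos (show 0 < P.D from hD), P.aut_seed]
  have hlb : ∀ x < P.Lam, P.letter (P.nb * m + 1) x = em (b ⟨x % P.D, Nat.mod_lt _ hD⟩) := by
    intro x _
    rw [Pa.letter, dif_pos (show 0 < P.D from hD), P.aut_seed']
  have hout0 : ∀ x < P.ell 4, M.out (c (T + x)) = em (a ⟨x % P.D, Nat.mod_lt _ hD⟩) := by
    intro x hx
    rw [← hla x hx, ← hSit.outp _ hst0 x (by rw [P.aut_len]; exact hx), hTt]
  have hout1 : ∀ x < P.Lam, M.out (c (T + P.ell 4 + x)) = em (b ⟨x % P.D, Nat.mod_lt _ hD⟩) := by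
    intro x hx
    rw [← hlb x hx, ← hSit.outp _ hst1 x (by rw [P.aut_len']; exact hx), ht1, hTt, Nat.add_assoc n]
  have hin0 : ∀ x < P.ell 4, (c 0).T ((T + x : ℕ) : ℤ) =
      some (em (a ⟨x % P.D, Nat.mod_lt _ hD⟩)) := by
    intro x hx
    rw [← hla x hx, ← hSit.right _ hst0 x (by rw [P.aut_len]; exact hx), hTt]
  have hin1 : ∀ x < P.Lam, (c 0).T ((T + P.ell 4 + x : ℕ) : ℤ) =
      some (em (b ⟨x % P.D, Nat.mod_lt _ hD⟩)) := by
    intro x hx
    rw [← hlb x hx, ← hSit.right _ hst1 x (by rw [P.aut_len']; exact hx), ht1, hTt, Nat.add_assoc n]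
  have hsw0 : P.sw (m + 1) 0 = a := by
    rw [ha, Pa.sw]
    rfl
  have hsw1 : P.sw (m + 1) 1 = b := by
    rw [hb, Pa.sw]
    rfl
  rcases Nat.lt_or_ge L P.bet with hLb | hLb
  · -- small delay: a finite automaton
    set Y : ℕ → Fin 3 := fun z => if z < T + P.ell 4 then a ⟨(z - T) % P.D, Nat.mod_lt _ hD⟩
      else b ⟨(z - (T + P.ell 4)) % P.D, Nat.mod_lt _ hD⟩ with hY
    have hYout : ∀ z, T ≤ z → z < T + P.ell 4 + P.Lam → M.out (c z) = em (Y z) := by
      intro z h1 h2
      rw [hY]
      dsimp only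
      split_ifs with h3
      · rw [← hout0 (z - T) (by omega)]
        congr 2
        omega
      · rw [← hout1 (z - (T + P.ell 4)) (by omega)]
        congr 2
        omega
    have hYin : ∀ z : ℕ, T ≤ z → z < T + P.ell 4 + P.Lam → (c 0).T z = some (em (Y z)) := by
      intro z h1 h2
      rw [hY]
      dsimp only
      split_ifs with h3
      · rw [← hin0 (z - T) (by omega)]
        congr 2
        omega
      · rw [← hin1 (z - (T + P.ell 4)) (by omega)]
        congr 2
        omega
    have hread : ∀ t, T + L ≤ t → t < T + P.ell 4 + P.Lam →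
        (c t).T (c t).p = some (em (Y (t - L))) := by
      intro t h1 h2
      rw [hp t (by omega) (by omega), hcell t (by omega) (by omega) _ (by omega) (le_refl _),
        ← hYin (t - L) (by omega) (by omega)]
      congr 1
      omega
    have hK3 : K * 3 ^ L ≤ K * 3 ^ P.bet :=
      Nat.mul_le_mul_left _ (Nat.pow_le_pow_right (by norm_num) hLb.le)
    have hK3' : K * 3 ^ P.bet ≤ K * 3 ^ P.bet * P.D := Nat.le_mul_of_pos_right _ hD
    have haut := hOk.haut
    obtain ⟨t₁, P₀, h1, h2, h3, h4⟩ := aut_per (Q := Q) (K := K) (L := L) (A := T + L)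
      (B := T + P.ell 4 + P.Lam) (Y := Y) (qq := fun t => (c t).q) hL1 (by omega) hcard
      (by
        intro t t' g1 g2 g3 g4 g5 g6
        have r1 := hread t g1 g2
        have r2 := hread t' g3 g4
        have r3 : (c t).T (c t).p = (c t').T (c t').p := by rw [r1, r2, g6]
        refine ⟨?_, ?_⟩
        · show (c (t + 1)).q = (c (t' + 1)).q
          rw [hSit.step, hSit.step, step_q, step_q, r3]
          rw [show (c t).q = (c t').q from g5]
        · apply em_inj
          rw [← hYout t (by omega) g2, ← hYout t' (by omega) g4, Mc.out, Mc.out, r3]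
          rw [show (c t).q = (c t').q from g5])
    have h5 := aut_iter h4 P.D
    have hP0 : P.D * P₀ ≤ K * 3 ^ P.bet * P.D := by
      rw [Nat.mul_comm]
      exact Nat.mul_le_mul_right _ (by omega)
    have hP0' : P.D ≤ P.D * P₀ := Nat.le_mul_of_pos_right _ (by omega)
    have hab : a = b := by
      funext x
      have hx := x.2
      have h6 := h5 (T + P.ell 4 + x - P.D * P₀) (by omega) (by omega)
      have e1 : T + P.ell 4 + x - P.D * P₀ + P.D * P₀ = T + P.ell 4 + x := by omega
      rw [e1, hY] at h6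
      dsimp only at h6
      rw [if_pos (by omega), if_neg (by omega)] at h6
      have e2 : (T + P.ell 4 + x - P.D * P₀ - T) % P.D = x := by
        obtain ⟨r, hr⟩ := hdvd
        have hr' : P.D * P₀ ≤ P.D * r := by omega
        have hr'' : P₀ ≤ r := Nat.le_of_mul_le_mul_left hr' hD
        have : T + P.ell 4 + x - P.D * P₀ - T = P.D * (r - P₀) + x := by
          rw [hr, Nat.mul_sub]
          omega
        rw [this, Nat.mul_add_mod, Nat.mod_eq_of_lt hx]
      have e3 : (T + P.ell 4 + x - (T + P.ell 4)) % P.D = x := by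
        rw [Nat.add_sub_cancel_left, Nat.mod_eq_of_lt hx]
      simp only [e2, e3, Fin.eta] at h6
      exact h6
    exact hgen.g7 (by rw [hsw0, hsw1, hab])
  · -- large delay: a relation
    refine hgen.g5 (Or.inl ⟨c (T + P.ell 4), ?_, ⟨0, fun x => ?_⟩, Or.inl ⟨P.ell 4 - L, fun x => ?_⟩⟩)
    · intro t ht
      rw [← hrun, hp _ (by omega) (by omega), hp _ (by omega) (by omega)]
      push_cast
      constructor <;> omega
    · have hx := x.2
      show M.out (M.run (c (T + P.ell 4)) x) = _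
      rw [← hrun, hout1 x (by omega), hsw1]
      rfl
    · have hx := x.2
      have e1 : (c (T + P.ell 4)).p + x = ((T + (P.ell 4 - L + x) : ℕ) : ℤ) := by
        rw [hp _ (by omega) (by omega)]
        push_cast
        omega
      show (c (T + P.ell 4)).T ((c (T + P.ell 4)).p + x) = _
      rw [e1, hcell _ (by omega) (by omega) _ (by push_cast; omega) (by push_cast; omega),
        hin0 _ (by omega), hsw0]
      congr 4
      rw [Nat.add_comm]

end Pool.Agent.Helper82.EN
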