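import Pool.Agent.Helper82.EN.Basic

set_option autoImplicit false

namespace Pool.Agent.Helper82.EN

open Finset

theorem core_stead_mir {Q : Type} {c : ℕ → Cf Q} {κ : ℕ} {s : ℤ} {a b : ℕ}
    (h : Stead (fun t => (c t).p) κ s a b) : Stead (fun t => (c t).mir.p) κ (-s) a b := by
  intro t t' h1 h2 h3
  have := h t t' h1 h2 h3
  simp only [Cf.mir] at this ⊢
  linarith

theorem core_reg_mir {Q : Type} {c : ℕ → Cf Q} {S : ℕ → ℕ} {k : ℕ} {s z : ℤ} :
    Reg (fun t => (c t).mir.p) S k s z ↔ Reg (fun t => (c t).p) S k (-s) (-z) := by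
  simp only [Reg, Cf.mir]
  constructor
  · rintro ⟨h1, t, h2, h3, h4⟩
    refine ⟨fun u hu hu' => ?_, t, h2, h3, by omega⟩
    have := h1 u hu hu'
    linarith
  · rintro ⟨h1, t, h2, h3, h4⟩
    refine ⟨fun u hu hu' => ?_, t, h2, h3, by omega⟩
    have := h1 u hu hu'
    linarith

theorem core_caseV_mir {Q : Type} {c : ℕ → Cf Q} {S : ℕ → ℕ} {P : Pa} {M : Mc Q} {Δ κ k : ℕ}
    {s : ℤ} (h : CaseV (fun t => (c t).p) S (P.good M Δ) κ k (-s)) :
    CaseV (fun t => (c t).mir.p) S (P.good M.mir Δ) κ k s := by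
  obtain ⟨μ, ν, h1, h2, h3, h4, h5⟩ := h
  refine ⟨μ, ν, h1, h2, fun j hj hj' => (P.good_mir M).2 (h3 j hj hj'), ?_, fun z hz => ?_⟩
  · have := core_stead_mir h4
    simpa using this
  · rw [core_reg_mir] at hz
    obtain ⟨u, hu1, hu2, hu3, hu4⟩ := h5 (-z) hz
    refine ⟨u, hu1, hu2, ?_, fun t ht ht' h' => hu4 t ht ht' ?_⟩
    · show -(c u).p = z
      have hu3' : (c u).p = -z := hu3
      omega
    · show (c t).p = -z
      have h'' : -(c t).p = z := h'
      omega

theorem st_CORE (hSU : ST_SUPER) (hST : ST_STEADY) (hBA : ST_BAD) (hCV : ST_CLV) (hCU : ST_CLU)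
    (hCB : ST_CLB) (hPU : ST_PURE) (hAU : ST_AUT) (hBL : ST_BLK) : ST_CORE := by
  intro Q _ P K Δ n M c hOk hcard hn hSit
  obtain ⟨hS0, hS1, hSS, -, -, -⟩ := hBL P K Δ n hOk hn
  have hrun : ∀ s t, c (s + t) = M.run (c s) t := fun s t => run_of_step M hSit.step s t
  have hunit : ∀ t, |(c (t + 1)).p - (c t).p| ≤ 1 := by
    intro t
    rw [hSit.step]
    exact abs_step M _
  have hlamL : P.Lam ≤ P.ell 4 := by
    have h1 := hOk.hlam
    have hD : 1 ≤ P.D := by
      have := hOk.hdD; have := hOk.hd; omega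
    have h2 : P.ell 4 = 100000000 * (P.D * P.Lam) := by simp [Pa.ell]
    rw [h2]
    nlinarith [Nat.mul_le_mul_right P.Lam hD]
  have hkap : 100 * P.kap + 100 ≤ P.ell 4 := by
    have h1 := hOk.hlam
    have h2 : P.bet = P.D + 2 * P.kap + 2 := rfl
    omega
  have hlen : n ≤ P.ell 4 := by
    have := hOk.hKL
    omega
  have hg0 : ¬ P.good M Δ 0 := fun h => by
    have := h.1
    omega
  have hgN : ∀ k, P.N < k → ¬ P.good M Δ k := fun k hk h => by
    have := h.2.1
    omega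
  have hN := hOk.hN
  obtain ⟨k, hk1, hk2, hk3, hk4, s, hs, hst, hcase⟩ :=
    hSU (fun t => (c t).p) (P.S n) (P.good M Δ) P.N (P.ell 4) P.kap hunit hSit.p0 hS0
      (by rw [hS1]; exact hlen) hSS hkap hg0 hgN
      (fun t ht => hSit.lag t (by rw [hS1] at ht; exact ht)) (by omega)
      (hBA Q P M K Δ hcard hOk)
      (fun a b hab hj => hST Q P K Δ n M c hOk hn hSit.toRun a b hab hj)
  rcases hs with rfl | rfl
  · rcases hcase with hV | ⟨-, hU⟩ | ⟨h, -⟩
    · exact hCV Q P K Δ n k M c hOk hn hSit.toRun hk2 hk3 hk4 hst hV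
    · have h1 := hCU Q P K Δ n k M c hOk hn hSit hk2 hk3 hk4 hst hU
      obtain ⟨j, hj1, hj2, hj3, hj4⟩ := hPU Q P K Δ n (k + 1) M c hOk hcard hn hSit (by omega)
        (by omega) h1
      exact hAU Q P K Δ n j M c hOk hcard hn hSit hj1 hj3 hj4
    · norm_num at h
  · have hR := hSit.toRun.mir
    have hk4' : ∀ j, k ≤ j + 13 → j ≤ k + 2 → P.good M.mir Δ j :=
      fun j h1 h2 => (P.good_mir M).2 (hk4 j h1 h2)
    have hst' : Stead (fun t => ((fun t => (c t).mir) t).p) P.kap 1 (P.S n (k - 13))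
        (P.S n (k + 3)) := by
      have := core_stead_mir hst
      simpa using this
    rcases hcase with hV | ⟨h, -⟩ | ⟨-, hB⟩
    · exact hCV Q P K Δ n k M.mir (fun t => (c t).mir) hOk hn hR hk2 hk3 hk4' hst'
        (core_caseV_mir (s := 1) hV)
    · norm_num at h
    · refine hCB Q P K Δ n k M.mir (fun t => (c t).mir) hOk hn hR hk2 hk3 hk4' hst' fun z hz => ?_
      have hz' := (core_reg_mir (s := 1)).1 hz
      obtain ⟨h1, h2⟩ := hB (-z) hz'
      have h3 : c (P.S n (k - 13)) = M.run (c 0) (P.S n (k - 13)) := by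
        have := hrun 0 (P.S n (k - 13))
        rwa [Nat.zero_add] at this
      show (c (P.S n (k - 13))).T (-z) = none
      rw [h3, run_T_eq M (c 0) _ (-z) fun t ht => ?_]
      · exact hSit.left _ h1
      · have := hrun 0 t
        rw [Nat.zero_add] at this
        rw [← this]
        exact h2 t ht

end Pool.Agent.Helper82.EN
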