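import Pool.Agent.Helper82.EN.Stmts2

set_option autoImplicit false

namespace Pool.Agent.Helper82.EN

theorem st_FIN (hR : ST_RED) (hM : ST_MEM) (hLB : ST_LB) (hCO : ST_COL) (hFS : ST_FSTC)
    (hG1 : ST_GL1) (hG2 : ST_GL2) (hG3 : ST_GL3) (hPH : ST_PTH) (hPR : ST_PTR) (hST : ST_STR) :
    ST_FIN := by
  have h := hR hLB hCO hFS hG1 hG2 hG3 hPH hPR hST
  refine ⟨⟨hM.1, h _ (fun I hI => (hG2 I).1 ((hG2 I).2 hI)) fun _ h => h⟩,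
    ⟨hM.2, h _ (fun I => (hG2 I).2) fun I => (hG2 I).1⟩, h⟩

end Pool.Agent.Helper82.EN
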