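import Pool.Agent.Helper82.EN.Stmts2

set_option autoImplicit false

namespace Pool.Agent.Helper82.EN

/-- the transducer which copies the letters `≥ 2` -/
def gl1_fst {k : ℕ} (F : FST k) : FST k := ⟨F.start, fun q a => if (a : ℕ) ≤ 1 then F.next q a else (q, a)⟩

theorem gl1_high {k : ℕ} (F : FST k) (h : List (Fin 5)) (hh : ∀ a ∈ h, 2 ≤ (a : ℕ)) (q : Fin k) :
    (gl1_fst F).out q h = h := by
  induction h generalizing q with
  | nil => rfl
  | cons a h ih =>
    have ha : ¬ (a : ℕ) ≤ 1 := by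
      have := hh a (by simp)
      omega
    simp only [FST.out, gl1_fst, if_neg ha]
    congr 1
    exact ih (fun b hb => hh b (by simp [hb])) q

theorem gl1_low {k : ℕ} (F : FST k) (h : List (Fin 5)) (hh : ∀ a ∈ h, 2 ≤ (a : ℕ))
    (x : List (Fin 5)) (hx : ∀ a ∈ x, (a : ℕ) ≤ 1) (q : Fin k) :
    (gl1_fst F).out q (x ++ h) = F.out q x ++ h := by
  induction x generalizing q with
  | nil => exact gl1_high F h hh q
  | cons a x ih =>
    have ha : (a : ℕ) ≤ 1 := hx a (by simp)
    simp only [List.cons_append, FST.out]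
    have e : (gl1_fst F).next q a = F.next q a := by simp only [gl1_fst, if_pos ha]
    rw [e, ih (fun b hb => hx b (by simp [hb]))]

theorem st_GL1 : ST_GL1 := by
  rintro x y h k hx hh ⟨j, hj, F, hF⟩
  refine ⟨j, hj, gl1_fst F, ?_⟩
  show (gl1_fst F).out F.start (x ++ h) = y ++ h
  rw [gl1_low F h hh x hx]
  congr 1

theorem gl2_halt {k : ℕ} (M : RTM k) (y : List (Fin 5)) (q : Fin k) (p : ℤ)
    (T : ℤ → Option (Fin 5)) (h : M.PrintsHalt q p T y) : M.Prints q p T y := by
  induction y generalizing q p T with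
  | nil => trivial
  | cons b y ih =>
    obtain ⟨q', a, m, h1, h2⟩ := h
    exact ⟨q', a, m, h1, ih _ _ _ h2⟩

/-- the machine which behaves as a transducer -/
def gl2_tm {k : ℕ} (F : FST k) : RTM k :=
  ⟨F.start, fun q a => a.map fun a => ((F.next q a).1, some a, 1, (F.next q a).2)⟩

theorem gl2_run {k : ℕ} (F : FST k) (x : List (Fin 5)) (q : Fin k) (p : ℤ)
    (T : ℤ → Option (Fin 5)) (hT : ∀ i : ℕ, T (p + i) = x[i]?) :
    (gl2_tm F).PrintsHalt q p T (F.out q x) := by
  induction x generalizing q p T with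
  | nil =>
    have := hT 0
    simp only [Nat.cast_zero, add_zero, List.getElem?_nil] at this
    show (gl2_tm F).next q (T p) = none
    rw [this]
    rfl
  | cons a x ih =>
    have h0 := hT 0
    simp only [Nat.cast_zero, add_zero, List.getElem?_cons_zero] at h0
    refine ⟨(F.next q a).1, some a, 1, ?_, ih _ _ _ fun i => ?_⟩
    · rw [h0]
      rfl
    · have e : p + ((1 : SignType) : ℤ) + i = p + ((i + 1 : ℕ) : ℤ) := by
        push_cast
        simp
        ring
      rw [e, Function.update_of_ne (by omega), hT (i + 1)]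
      simp

theorem st_GL2 : ST_GL2 := by
  intro I
  refine ⟨?_, ?_⟩
  · rintro ⟨j, hj, M, hM⟩
    exact ⟨j, hj, M, gl2_halt M _ _ _ _ hM⟩
  · rintro ⟨j, hj, F, hF⟩
    refine ⟨j, hj, gl2_tm F, ?_⟩
    rw [← hF]
    refine gl2_run F I.1 F.start 0 (tape I.1) fun i => ?_
    rw [tape, if_neg (by omega)]
    congr 1
    omega

end Pool.Agent.Helper82.EN
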