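import Pool.Agent.Helper82.EN.Basic

set_option autoImplicit false

namespace Pool.Agent.Helper82.EN

open Finset

theorem lb_get (P : Pa) (hS : ST_STR) (x : List (Fin 5)) (i : ℕ) (hi : i < P.Nst) (j : ℕ)
    (hj : j < P.len i) :
    x.length + P.tau i + j < (x ++ P.hard).length ∧
    (x ++ P.hard)[x.length + P.tau i + j]? = some (P.letter i j) := by
  obtain ⟨h1, h2, -⟩ := hS P
  obtain ⟨h3, h4⟩ := h2 i hi j hj
  refine ⟨?_, ?_⟩
  · rw [List.length_append, h1]
    omega
  · rw [List.getElem?_append_right (by omega)]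
    have : x.length + P.tau i + j - x.length = P.tau i + j := by omega
    rw [this, h4]

theorem st_LB (hC : ST_CORE) (hP : ST_PAR) (hS : ST_STR) : ST_LB := by
  intro Q _ M q l x y hl hcard hxy hxn hout
  set c0 : Cf Q := ⟨q, 0, fun z => if z < 0 then none else (x ++ (PP l).hard)[z.toNat]?⟩ with hc0
  by_contra hne
  have habs : ∀ s t : ℕ, s ≤ t → (M.run c0 t).p - (M.run c0 s).p ≤ (t : ℤ) - s := fun s t h =>
    (abs_le.1 (abs_run M c0 s t h)).2
  have h0 : (M.run c0 0).p = 0 := rfl
  have hn : (M.run c0 x.length).p < x.length := by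
    have := habs 0 x.length (Nat.zero_le _)
    rw [h0] at this
    push_cast at this
    exact lt_of_le_of_ne (by linarith) hne
  refine hC Q (PP l) (2 ^ l) (DD l) x.length M (fun t => M.run c0 t) (hP l hl) hcard hxn ?_
  refine ⟨⟨fun t => run_succ M c0 t, ?_⟩, h0, ?_, ?_, ?_⟩
  · intro i hi j hj
    obtain ⟨h1, h2⟩ := lb_get (PP l) hS y i hi j hj
    rw [← hxy] at h1 h2
    have h3 := hout _ h1
    rw [h2] at h3
    exact (Option.some.inj h3).symm
  · intro z hz
    show (if z < 0 then none else (x ++ (PP l).hard)[z.toNat]?) = none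
    rw [if_pos hz]
  · intro i hi j hj
    obtain ⟨h1, h2⟩ := lb_get (PP l) hS x i hi j hj
    show (if ((x.length + (PP l).tau i + j : ℕ) : ℤ) < 0 then none else
      (x ++ (PP l).hard)[((x.length + (PP l).tau i + j : ℕ) : ℤ).toNat]?) = _
    rw [if_neg (not_lt.2 (Int.natCast_nonneg _)), Int.toNat_natCast, h2]
  · intro t ht
    have := habs x.length t ht
    show (M.run c0 t).p < t
    linarith

end Pool.Agent.Helper82.EN
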