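import Pool.Agent.Helper82.EN.Basic

set_option autoImplicit false

namespace Pool.Agent.Helper82.EN

open Finset

theorem pure_mono {p : ℕ → ℤ} (h : ∀ t, |p (t + 1) - p t| ≤ 1) {a b : ℕ} (hab : a ≤ b) :
    (a : ℤ) - p a ≤ b - p b := by
  induction b, hab using Nat.le_induction with
  | base => exact le_refl _
  | succ b _ ih =>
    have := (abs_le.1 (h b)).2
    push_cast
    linarith

theorem pure_strict {p : ℕ → ℤ} (h : ∀ t, |p (t + 1) - p t| ≤ 1) {a b t : ℕ} (h1 : a ≤ t)
    (h2 : t < b) (h3 : p (t + 1) ≠ p t + 1) : (a : ℤ) - p a + 1 ≤ b - p b := by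
  have e1 := pure_mono h h1
  have e2 : ((t + 1 : ℕ) : ℤ) - p (t + 1) ≤ b - p b := pure_mono h h2
  have e3 := (abs_le.1 (h t)).2
  have e4 : p (t + 1) ≤ p t := by
    have : p (t + 1) ≤ p t + 1 := by linarith
    exact Int.lt_add_one_iff.1 (lt_of_le_of_ne this h3)
  push_cast at e2
  linarith

open Classical in
theorem pure_count {p : ℕ → ℤ} (h : ∀ t, |p (t + 1) - p t| ≤ 1) {S : ℕ → ℕ}
    (hS : ∀ j, S j ≤ S (j + 1)) (k : ℕ) :
    (((range k).filter fun j => ∃ t, S j ≤ t ∧ t < S (j + 1) ∧ p (t + 1) ≠ p t + 1).card : ℤ)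
      + ((S 0 : ℤ) - p (S 0)) ≤ S k - p (S k) := by
  induction k with
  | zero => simp
  | succ k ih =>
    rw [range_add_one, filter_insert]
    split_ifs with hk
    · obtain ⟨t, h1, h2, h3⟩ := hk
      rw [card_insert_of_notMem (by simp)]
      have := pure_strict h h1 h2 h3
      push_cast
      linarith
    · have := pure_mono h (hS k)
      linarith

theorem st_PURE (hBA : ST_BAD) (hBL : ST_BLK) : ST_PURE := by
  classical
  intro Q _ P K Δ n k M c hOk hcard hn hSit hk hkN hdel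
  obtain ⟨hS0, hS1, hSS, -, -, -⟩ := hBL P K Δ n hOk hn
  have hunit : ∀ t, |(c (t + 1)).p - (c t).p| ≤ 1 := by
    intro t
    rw [hSit.step]
    exact abs_step M _
  have hmono : ∀ j, P.S n j ≤ P.S n (j + 1) := by
    intro j
    rcases Nat.eq_zero_or_pos j with rfl | hj
    · rw [hS0]
      exact Nat.zero_le _
    · have := (hSS j hj).1
      omega
  have hmono' : ∀ a b, a ≤ b → P.S n a ≤ P.S n b := fun a b hab => monotone_nat_of_le_succ hmono hab
  have hc := pure_count (p := fun t => (c t).p) hunit hmono k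
  have hbad := hBA Q P M K Δ hcard hOk
  have hN := hOk.hN
  by_contra hno
  have hsub : range k ⊆ ((range (P.N + 1)).filter fun j => ¬ P.good M Δ j) ∪
      ((range k).filter fun j => ∃ t, P.S n j ≤ t ∧ t < P.S n (j + 1) ∧
        (c (t + 1)).p ≠ (c t).p + 1) := by
    intro j hj
    rw [mem_range] at hj
    rw [mem_union, mem_filter, mem_filter, mem_range, mem_range]
    by_cases hg : P.good M Δ j
    · right
      refine ⟨hj, ?_⟩
      by_contra hall
      push Not at hall
      refine hno ⟨j, hg, hj, ?_, hall⟩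
      have : ((P.S n j : ℕ) : ℤ) - (c (P.S n j)).p ≤ P.S n k - (c (P.S n k)).p :=
        pure_mono (p := fun t => (c t).p) hunit (hmono' j k hj.le)
      linarith
    · left
      exact ⟨by omega, hg⟩
  have h1 := (card_le_card hsub).trans (card_union_le _ _)
  rw [card_range] at h1
  have h2 : (((range k).filter fun j => ∃ t, P.S n j ≤ t ∧ t < P.S n (j + 1) ∧
        (c (t + 1)).p ≠ (c t).p + 1).card : ℤ) ≤ 3 * P.Lam := by
    have h0 : ((P.S n 0 : ℕ) : ℤ) - (c (P.S n 0)).p = 0 := by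
      rw [hS0, hSit.p0]
      simp
    have hc' : (((range k).filter fun j => ∃ t, P.S n j ≤ t ∧ t < P.S n (j + 1) ∧
        (c (t + 1)).p ≠ (c t).p + 1).card : ℤ) + (((P.S n 0 : ℕ) : ℤ) - (c (P.S n 0)).p)
        ≤ P.S n k - (c (P.S n k)).p := hc
    rw [h0] at hc'
    linarith
  have h3 : ((range k).filter fun j => ∃ t, P.S n j ≤ t ∧ t < P.S n (j + 1) ∧
        (c (t + 1)).p ≠ (c t).p + 1).card ≤ 3 * P.Lam := by exact_mod_cast h2
  omega

end Pool.Agent.Helper82.EN
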