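import Pool.Agent.Helper82.EN.Stmts

set_option autoImplicit false

namespace Pool.Agent.Helper82.EN

open Finset

/-- the first `m` stages -/
def str_h (P : Pa) (m : ℕ) : List (Fin 5) :=
  (List.range m).flatMap fun i => (List.range (P.len i)).map fun x => P.letter i x

theorem str_succ (P : Pa) (m : ℕ) :
    str_h P (m + 1) = str_h P m ++ (List.range (P.len m)).map fun x => P.letter m x := by
  rw [str_h, List.range_succ, List.flatMap_append]
  simp [str_h]

theorem str_tau (P : Pa) (m : ℕ) : P.tau (m + 1) = P.tau m + P.len m := by
  rw [Pa.tau, Pa.tau, sum_range_succ]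

theorem str_length (P : Pa) (m : ℕ) : (str_h P m).length = P.tau m := by
  induction m with
  | zero => simp [str_h, Pa.tau]
  | succ m ih => rw [str_succ, List.length_append, ih, str_tau]; simp

theorem str_get (P : Pa) (m : ℕ) : ∀ i < m, ∀ x < P.len i,
    P.tau i + x < P.tau m ∧ (str_h P m)[P.tau i + x]? = some (P.letter i x) := by
  induction m with
  | zero => intro i hi; omega
  | succ m ih =>
    intro i hi x hx
    rcases Nat.lt_succ_iff_lt_or_eq.1 hi with h | rfl
    · obtain ⟨h1, h2⟩ := ih i h x hx
      rw [str_tau, str_succ]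
      refine ⟨by omega, ?_⟩
      rw [List.getElem?_append_left (by rw [str_length]; exact h1), h2]
    · rw [str_tau, str_succ]
      refine ⟨by omega, ?_⟩
      rw [List.getElem?_append_right (by rw [str_length]; omega), str_length]
      have : P.tau i + x - P.tau i = x := by omega
      rw [this]
      simp [hx]

theorem st_STR : ST_STR := by
  intro P
  refine ⟨str_length P P.Nst, str_get P P.Nst, fun hD a ha => ?_⟩
  simp only [Pa.hard, List.mem_flatMap, List.mem_map] at ha
  obtain ⟨i, -, x, -, rfl⟩ := ha
  rw [Pa.letter, dif_pos hD]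
  simp only [em]
  omega

end Pool.Agent.Helper82.EN
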