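import Pool.Agent.Helper37.EN.RED
import Pool.Agent.Helper1.EN.GL3
import Pool.Agent.Helper22.EN.VIS
import Pool.Agent.Helper26.EN.BLK
import Pool.Agent.Helper41.EN.CNT
import Pool.Agent.Helper44.EN.MATCH
import Pool.Agent.Helper45.EN.DEC
import Pool.Agent.Helper45.EN.EB
import Pool.Agent.Helper50.EN.CLU
import Pool.Agent.Helper53.EN.MEM
import Pool.Agent.Helper55.EN.PAR
import Pool.Agent.Helper56.EN.UPO
import Pool.Agent.Helper63.EN.PATH
import Pool.Agent.Helper63.EN.STEADY
import Pool.Agent.Helper7.EN.BAD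
import Pool.Agent.Helper7.EN.GEN
import Pool.Agent.Helper76.EN.COL
import Pool.Agent.Helper79.EN.LAID
import Pool.Agent.Helper82.EN.Aut
import Pool.Agent.Helper82.EN.Core
import Pool.Agent.Helper82.EN.GL12
import Pool.Agent.Helper82.EN.LB
import Pool.Agent.Helper82.EN.Pure
import Pool.Agent.Helper82.EN.Str
import Pool.Agent.Helper82.EN.Fin
import Pool.Agent.Helper90.EN.Clb
import Pool.Agent.Helper90.EN.Read
import Pool.Agent.Helper90.EN.Super
import Pool.Agent.Helper91.EN.RC
import Pool.Agent.Helper94.EN.PTR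
import Pool.Agent.Helper95.EN.PTH
import Pool.Agent.Helper99.EN.FSTC

set_option autoImplicit false

namespace Pool.Agent.Helper82.EN

theorem en_core (hCLV : ST_CLV) : ST_CORE :=
  st_CORE (st_SUPER st_VIS st_UPO st_CNT) (st_STEADY st_PATH st_BLK) (st_BAD (st_GEN st_EB st_RC))
    hCLV (st_CLU st_READ st_MATCH st_DEC st_BLK) (st_CLB st_READ st_BLK)
    (st_PURE (st_BAD (st_GEN st_EB st_RC)) st_BLK) (st_AUT st_BLK) st_BLK

theorem en_all_of (hCLV : ST_CLV) : ST_FIN :=
  st_FIN st_RED st_MEM (st_LB (en_core hCLV) st_PAR st_STR) st_COL st_FSTC st_GL1 st_GL2 st_GL3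
    st_PTH st_PTR st_STR

end Pool.Agent.Helper82.EN
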