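import Mathlib

set_option autoImplicit false

/-! # ENCODING BY TM: definitions used inside the proof

`Mc`: total real-time machines with tape alphabet `Option (Fin 5)` (`none` = blank), `Cf`: their
configurations.  `Pa`: parameters of the hard string. -/

namespace Pool.Agent.Helper82.EN

/-! ## Machines -/

/-- tape symbols: the five letters and the blank -/
abbrev Tp := Option (Fin 5)

/-- a real-time machine: state, symbol read ↦ new state, symbol written, move, symbol printed -/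
structure Mc (Q : Type) where
  tr : Q → Tp → Q × Tp × SignType × Fin 5

/-- configurations: state, position of the head, tape -/
@[ext] structure Cf (Q : Type) where
  q : Q
  p : ℤ
  T : ℤ → Tp

section
variable {Q : Type}

/-- symbol printed in the next step -/
def Mc.out (M : Mc Q) (c : Cf Q) : Fin 5 := (M.tr c.q (c.T c.p)).2.2.2

/-- one step -/
def Mc.step (M : Mc Q) (c : Cf Q) : Cf Q :=
  ⟨(M.tr c.q (c.T c.p)).1, c.p + ((M.tr c.q (c.T c.p)).2.2.1 : ℤ),
    Function.update c.T c.p (M.tr c.q (c.T c.p)).2.1⟩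

/-- `t` steps -/
def Mc.run (M : Mc Q) (c : Cf Q) (t : ℕ) : Cf Q := M.step^[t] c

/-- the mirrored machine -/
def Mc.mir (M : Mc Q) : Mc Q :=
  ⟨fun q a => ((M.tr q a).1, (M.tr q a).2.1, -(M.tr q a).2.2.1, (M.tr q a).2.2.2)⟩

/-- the mirrored configuration -/
def Cf.mir (c : Cf Q) : Cf Q := ⟨c.q, -c.p, fun z => c.T (-z)⟩

end

/-! ## Parameters and the hard string -/

/-- parameters: `5 d` = length of windows, `D` = length of seed words, `Lam` = length of short
stages -/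
structure Pa where
  d : ℕ
  D : ℕ
  Lam : ℕ

/-- letters `0, 1, 2` of seed words become the letters `2, 3, 4` -/
def em (a : Fin 3) : Fin 5 := ⟨a.1 + 2, by omega⟩

namespace Pa

variable (P : Pa)

/-- margin -/
def kap : ℕ := 3 * P.d
/-- threshold for overlaps -/
def bet : ℕ := P.D + 2 * P.kap + 2

/-- seed words -/
abbrev Wd := Fin P.D → Fin 3

/-- length of a stage of class `c`; class `0` = short stages -/
def ell (c : ℕ) : ℕ :=
  if c = 0 then P.Lam else if c = 1 then 100 * P.Lam else if c = 2 then 10000 * P.Lam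
  else if c = 3 then 1000000 * P.Lam else 100000000 * (P.D * P.Lam)

/-- class of the group `g`; the groups `(4 D + 3) m, ...` spell `4, 1`, digits of `m`, `2` -/
def code (g : ℕ) : ℕ :=
  if g % (4 * P.D + 3) = 0 then 4 else if g % (4 * P.D + 3) = 1 then 1
  else if g % (4 * P.D + 3) = 4 * P.D + 2 then 2
  else g / (4 * P.D + 3) / 3 ^ (g % (4 * P.D + 3) - 2) % 3 + 1

/-- class of the stage `i` -/
def cls (i : ℕ) : ℕ := if i % 3 = 0 then P.code (i / 3) else 0

/-- number of stages in a block -/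
def nb : ℕ := 3 * (4 * P.D + 3)

/-- number of blocks -/
def N : ℕ := 3 ^ (4 * P.D)

/-- `j`-th word (`j = 1, 2, 3`) of the block `m` -/
def wd (m j : ℕ) : P.Wd := fun x => ⟨m / 3 ^ (j * P.D + x) % 3, Nat.mod_lt _ (by norm_num)⟩

/-- seed word of the stage `i` -/
def seed (i : ℕ) : P.Wd := P.wd (i / P.nb) (i % 3 + 1)

/-- length of the stage `i` -/
def len (i : ℕ) : ℕ := P.ell (P.cls i)

/-- beginning of the stage `i` -/
def tau (i : ℕ) : ℕ := ∑ j ∈ Finset.range i, P.len j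

/-- number of stages -/
def Nst : ℕ := P.nb * P.N

/-- letter number `x` of the stage `i` (`0` if `D = 0`) -/
def letter (i x : ℕ) : Fin 5 :=
  if h : 0 < P.D then em (P.seed i ⟨x % P.D, Nat.mod_lt _ h⟩) else 0

/-- the hard string -/
def hard : List (Fin 5) :=
  (List.range P.Nst).flatMap fun i => (List.range (P.len i)).map fun x => P.letter i x

/-- beginning of the block `k`; block `0` is the time before the hard string, `n` its length -/
def S (n k : ℕ) : ℕ := if k = 0 then 0 else n + P.tau (P.nb * (k - 1))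

/-! ## Words, relations -/

/-- `v` is a rotation of the seed word `a` -/
def Rot (a : P.Wd) (v : Fin P.D → Fin 5) : Prop :=
  ∃ j : ℕ, ∀ x : Fin P.D, v x = em (a ⟨(x + j) % P.D, Nat.mod_lt _ (x.pos)⟩)

/-- `C` is a tape content spelling a rotation of the seed word `a` -/
def Ini (a : P.Wd) (C : Fin P.D → Tp) : Prop :=
  ∃ j : ℕ, ∀ x : Fin P.D, C x = some (em (a ⟨(x + j) % P.D, Nat.mod_lt _ (x.pos)⟩))

section
variable {Q : Type}

/-- the head stays in the window `[p - kap, p + D + kap)` (`p` = first position) before time `t₁` -/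
def Win (M : Mc Q) (c : Cf Q) (t₁ : ℕ) : Prop :=
  ∀ t < t₁, c.p - P.kap ≤ (M.run c t).p ∧ (M.run c t).p < c.p + P.D + P.kap

/-- the content `C` of `D` cells can be left behind by a pass to the right printing a rotation of
`a` -/
def Laid (M : Mc Q) (a : P.Wd) (C : Fin P.D → Tp) : Prop :=
  ∃ (c : Cf Q) (t₁ : ℕ), P.D ≤ t₁ ∧ P.Win M c t₁ ∧ (M.run c t₁).p = c.p + P.D + P.kap ∧
    P.Rot a (fun x => M.out (M.run c x)) ∧ ∀ x : Fin P.D, C x = (M.run c t₁).T (c.p + x)

/-- a pass to the right over `D` cells spelling a rotation of `a`, or left behind by a pass to the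
left printing a rotation of `a`, can print a rotation of `w` -/
def Rel1 (M : Mc Q) (a w : P.Wd) : Prop :=
  ∃ c : Cf Q, P.Win M c P.D ∧ P.Rot w (fun x => M.out (M.run c x)) ∧
    (P.Ini a (fun x => c.T (c.p + x)) ∨
      P.Laid M.mir a (fun x => c.T (c.p + ((P.D : ℤ) - 1 - x))))

/-- `Rel1` in one of the two directions -/
def Rel (M : Mc Q) (a w : P.Wd) : Prop := P.Rel1 M a w ∨ P.Rel1 M.mir a w

/-- a pass to the right over `D` blank cells can print a rotation of `w` -/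
def Blk1 (M : Mc Q) (w : P.Wd) : Prop :=
  ∃ c : Cf Q, P.Win M c P.D ∧ P.Rot w (fun x => M.out (M.run c x)) ∧
    ∀ x : Fin P.D, c.T (c.p + x) = none

/-- `Blk1` in one of the two directions -/
def Blk (M : Mc Q) (w : P.Wd) : Prop := P.Blk1 M w ∨ P.Blk1 M.mir w

/-- `V` can be printed in `5 d` steps while the head stays in `3 d` cells -/
def Eb1 (M : Mc Q) (V : Fin (5 * P.d) → Fin 5) : Prop :=
  ∃ (c : Cf Q) (l : ℤ), (∀ t < 5 * P.d, l ≤ (M.run c t).p ∧ (M.run c t).p < l + 3 * P.d) ∧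
    ∀ t : Fin (5 * P.d), M.out (M.run c t) = V t

/-- `Eb1` for the machine or the mirrored machine -/
def Eb (M : Mc Q) (V : Fin (5 * P.d) → Fin 5) : Prop := P.Eb1 M V ∨ P.Eb1 M.mir V

open Classical in
/-- out-degree -/
noncomputable def odeg (M : Mc Q) (a : P.Wd) : ℕ :=
  (Finset.univ.filter fun w : P.Wd => P.Rel M a w).card

open Classical in
/-- in-degree -/
noncomputable def ideg (M : Mc Q) (w : P.Wd) : ℕ :=
  (Finset.univ.filter fun a : P.Wd => P.Rel M a w).card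

/-- the word of length `5 d` read cyclically in `u` from position `j` on -/
def cyc (u : P.Wd) (j : ℕ) : Fin (5 * P.d) → Fin 5 :=
  fun t => if h : 0 < P.D then em (u ⟨(t + j) % P.D, Nat.mod_lt _ h⟩) else 0

/-- the last `x` letters of `u` followed by the first letters of `v` (`5 d` letters in all) -/
def jun (u v : P.Wd) (x : ℕ) : Fin (5 * P.d) → Fin 5 :=
  fun t => if h : 0 < P.D then
    (if (t : ℕ) < x then em (u ⟨(P.D - x + t) % P.D, Nat.mod_lt _ h⟩)
      else em (v ⟨(t - x) % P.D, Nat.mod_lt _ h⟩)) else 0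

/-- generic triples of seed words -/
structure Gen (M : Mc Q) (Δ : ℕ) (w : Fin 3 → P.Wd) : Prop where
  g1 : ∀ i, ∀ j < P.D, ¬ P.Eb M (P.cyc (w i) j)
  g1' : ∀ i, ∀ x ≤ 5 * P.d, ¬ P.Eb M (P.jun (w i) (w (i + 1)) x)
  g2 : ∀ i, P.odeg M (w i) ≤ Δ ∧ P.ideg M (w i) ≤ Δ
  g3 : ∀ s, P.ideg M s ≤ Δ → ¬ ∀ i, P.Rel M (w i) s
  g4 : ∀ m, P.odeg M m ≤ Δ → ¬ ∀ i, P.Rel M m (w i)
  g5 : ¬ P.Rel M (w 0) (w 1)
  g6 : ∀ i, ¬ P.Blk M (w i)
  g7 : w 0 ≠ w 1

/-- the seed words of the block `k ≥ 1` -/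
def sw (k : ℕ) : Fin 3 → P.Wd := fun i => P.wd (k - 1) (i + 1)

/-- good blocks -/
def good (M : Mc Q) (Δ k : ℕ) : Prop :=
  1 ≤ k ∧ k ≤ P.N ∧ P.Gen M Δ (P.sw k) ∧ (k - 1) % 3 ^ P.D ≠ 3 ^ P.D - 1

end

/-- inequalities between the parameters -/
structure Ok (K Δ : ℕ) : Prop where
  hK : 1 ≤ K
  hd : 1 ≤ P.d
  hdD : 5 * P.d ≤ P.D
  hdvd : P.D ∣ P.Lam
  hlam : 1000 * P.bet + 1000 ≤ P.Lam
  hKL : K ≤ P.Lam
  haut : 4 * (K * 3 ^ P.bet * P.D) ≤ P.Lam
  hN : 10 * P.Lam + 10000 ≤ P.N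
  hD3 : 10000 ≤ 3 ^ P.D
  p1 : 100000 * ((3 * P.D + 15 * P.d + 3) * (2 * (K * (3 * P.d) * 216 ^ P.d))) ≤ 243 ^ P.d
  p2 : 100000 * (4 * K ^ 2 * P.D ^ 2 * 6 ^ (P.D + 4 * P.kap)) ≤ Δ * 3 ^ P.D
  p3 : 100000 * Δ ^ 3 ≤ 9 ^ P.D
  p4 : 100000 * (2 * K * P.D * 6 ^ (2 * P.kap)) ≤ 3 ^ P.D

/-! ## Runs -/

section
variable {Q : Type}

/-- `c` is a run of `M` printing the hard string from time `n` on -/
structure Run (M : Mc Q) (c : ℕ → Cf Q) (n : ℕ) : Prop where
  step : ∀ t, c (t + 1) = M.step (c t)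
  outp : ∀ i < P.Nst, ∀ x < P.len i, M.out (c (n + P.tau i + x)) = P.letter i x

/-- the situation which has to be refuted: `c` is a run of `M` which prints the hard string from
time `n` on, the hard string is written on the cells from `n` on, and the head is late -/
structure Sit (M : Mc Q) (c : ℕ → Cf Q) (n : ℕ) : Prop extends P.Run M c n where
  p0 : (c 0).p = 0
  left : ∀ z < 0, (c 0).T z = none
  right : ∀ i < P.Nst, ∀ x < P.len i,
    (c 0).T ((n + P.tau i + x : ℕ) : ℤ) = some (P.letter i x)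
  lag : ∀ t : ℕ, n ≤ t → (c t).p < t

end

end Pa

/-! ## Paths -/

/-- steady motion with sign `s` on the times `[a, b)` -/
def Stead (p : ℕ → ℤ) (κ : ℕ) (s : ℤ) (a b : ℕ) : Prop :=
  ∀ t t' : ℕ, a ≤ t → t ≤ t' → t' < b → (t' : ℤ) - t ≤ 5 * (s * (p t' - p t)) + 5 * κ

/-- cells passed in the blocks `k, k + 1, k + 2` for the first time since the beginning of the
block `k - 13` (direction `s`) -/
def Reg (p : ℕ → ℤ) (S : ℕ → ℕ) (k : ℕ) (s z : ℤ) : Prop :=
  (∀ t, S (k - 13) ≤ t → t < S k → s * p t < s * z) ∧ ∃ t, S k ≤ t ∧ t < S (k + 3) ∧ p t = z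

/-- event number `l`: `t` is the first time after the block `l` at which the path exceeds its
maximum on the block `l` -/
def Ev (p : ℕ → ℤ) (S : ℕ → ℕ) (l t : ℕ) : Prop :=
  S (l + 1) ≤ t ∧ (∀ u, S l ≤ u → u < t → p u < p t) ∧ ∃ u, S l ≤ u ∧ u < S (l + 1) ∧ p u + 1 = p t

/-- `t` is the first time at the position `S (l + 1)` -/
def EvP (p : ℕ → ℤ) (S : ℕ → ℕ) (l t : ℕ) : Prop :=
  p t = S (l + 1) ∧ ∀ u < t, p u ≠ S (l + 1)

/-- `l` is at distance at most `2` from a bad block -/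
def Near (good : ℕ → Prop) (l : ℕ) : Prop := ∃ b, ¬ good b ∧ b ≤ l + 2 ∧ l ≤ b + 2

/-- visited case: the cells of the region were last visited during good blocks, in a steady motion
in the opposite direction -/
def CaseV (p : ℕ → ℤ) (S : ℕ → ℕ) (good : ℕ → Prop) (κ k : ℕ) (s : ℤ) : Prop :=
  ∃ μ ν : ℕ, μ < ν ∧ ν + 14 ≤ k ∧ (∀ j, μ ≤ j → j ≤ ν → good j) ∧
    Stead p κ (-s) (S μ) (S (ν + 1)) ∧
    ∀ z, Reg p S k s z → ∃ u, S (μ + 1) ≤ u ∧ u < S ν ∧ p u = z ∧
      ∀ t, u < t → t < S (k - 13) → p t ≠ z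

/-- unvisited case, direction `+` -/
def CaseU (p : ℕ → ℤ) (S : ℕ → ℕ) (good : ℕ → Prop) (k : ℕ) : Prop :=
  ∃ μ ν : ℕ, μ < ν ∧ (∀ j, μ ≤ j → j ≤ ν → good j) ∧
    ∀ z, Reg p S k 1 z → (S (μ + 1) : ℤ) ≤ z ∧ z < S ν ∧ ∀ t < S (k - 13), p t ≠ z

end Pool.Agent.Helper82.EN
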