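import Mathlib
import Pool.Agent.Helper52.ES.Class

set_option autoImplicit false

/-! # ENCODING BY TM: the problem

Letters: `0, 1, 2, 3, 4 : Fin 5` stand for `0, 1, 2, α, β`; `none : Option (Fin 5)` is the blank. -/

namespace Pool.Agent.Helper82.EN

open Pool.Agent.Helper52.Poly (Enc enc InNP)
open Pool.Agent.Helper52.ES (Reduces)

/-- Letters are coded like natural numbers. -/
instance : Enc (Fin 5) := ⟨fun a => enc (a : ℕ)⟩

/-- Real-time Turing machines with the states `Fin k`: in a state, reading a symbol of the tape, the
machine halts (`none`), or passes to a new state, writes a symbol on the tape, moves its head by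
`-1`, `0` or `1`, and prints a letter on the output tape. -/
structure RTM (k : ℕ) where
  start : Fin k
  next : Fin k → Option (Fin 5) → Option (Fin k × Option (Fin 5) × SignType × Fin 5)

/-- From the state `q`, the head being at `p` on the tape `T`, the machine makes at least as many
steps as `y` has letters, and the letters printed in these steps are those of `y`. -/
def RTM.Prints {k : ℕ} (M : RTM k) : Fin k → ℤ → (ℤ → Option (Fin 5)) → List (Fin 5) → Prop
  | _, _, _, [] => True
  | q, p, T, b :: y => ∃ q' a m, M.next q (T p) = some (q', a, m, b) ∧
      M.Prints q' (p + m) (Function.update T p a) y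

/-- From the state `q`, the head being at `p` on the tape `T`, the machine makes exactly as many
steps as `y` has letters and halts, and the letters printed are those of `y`. -/
def RTM.PrintsHalt {k : ℕ} (M : RTM k) : Fin k → ℤ → (ℤ → Option (Fin 5)) → List (Fin 5) → Prop
  | q, p, T, [] => M.next q (T p) = none
  | q, p, T, b :: y => ∃ q' a m, M.next q (T p) = some (q', a, m, b) ∧
      M.PrintsHalt q' (p + m) (Function.update T p a) y

/-- The tape (infinite in both directions) with the word `x` on the cells `0, 1, 2, ...`. -/
def tape (x : List (Fin 5)) : ℤ → Option (Fin 5) := fun z => if z < 0 then none else x[z.toNat]?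

/-- Instances `(x, y, k)`. -/
abbrev Inst := List (Fin 5) × List (Fin 5) × ℕ

/-- ENCODING BY TM: some real-time Turing machine with at most `k` states started on `x` prints `y`
in the first `|y|` steps. -/
def EncTM (I : Inst) : Prop :=
  ∃ j ≤ I.2.2, ∃ M : RTM j, M.Prints M.start 0 (tape I.1) I.2.1

/-- ENCODING BY TM, with machines which halt after exactly `|y|` steps. -/
def EncTMHalt (I : Inst) : Prop :=
  ∃ j ≤ I.2.2, ∃ M : RTM j, M.PrintsHalt M.start 0 (tape I.1) I.2.1

/-- Finite-state transducers with the states `Fin k`. -/
structure FST (k : ℕ) where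
  start : Fin k
  next : Fin k → Fin 5 → Fin k × Fin 5

/-- The output of a transducer started in the state `q` on a word. -/
def FST.out {k : ℕ} (F : FST k) : Fin k → List (Fin 5) → List (Fin 5)
  | _, [] => []
  | q, a :: x => (F.next q a).2 :: F.out (F.next q a).1 x

/-- ENCODING BY FST: some transducer with at most `k` states maps `x` to `y`. -/
def EncFST (I : Inst) : Prop := ∃ j ≤ I.2.2, ∃ F : FST j, F.out F.start I.1 = I.2.1

/-- Every problem in NP is reducible to `L` by a polynomial-time many-one reduction. -/
def NPHard (L : Inst → Prop) : Prop := ∀ L' : List Bool → Prop, InNP L' → Reduces L' L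

/-- NP-completeness. -/
def NPComplete (L : Inst → Prop) : Prop := InNP L ∧ NPHard L

/-- ENCODING BY TM is NP-complete, in both versions, and every problem between ENCODING BY FST and
ENCODING BY TM is NP-hard. -/
def ST_FIN : Prop := NPComplete EncTM ∧ NPComplete EncTMHalt ∧
  ∀ L : Inst → Prop, (∀ I, EncFST I → L I) → (∀ I, L I → EncTM I) → NPHard L

end Pool.Agent.Helper82.EN
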