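import Pool.Agent.Helper82.EN.Defs

set_option autoImplicit false

/-! # ENCODING BY TM: exact statements of the modules of the lower bound -/

namespace Pool.Agent.Helper82.EN

open Finset

/-! ## Numbers and words -/

/-- explicit parameters -/
def PP (l : ℕ) : Pa :=
  ⟨360 * l, 240000 * l,
    4 * (2 ^ l * 3 ^ (240000 * l + 2 * (3 * (360 * l)) + 2) * (240000 * l))⟩

/-- explicit bound for degrees -/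
def DD (l : ℕ) : ℕ :=
  100000 * (4 * (2 ^ l) ^ 2 * (240000 * l) ^ 2 * 6 ^ (4 * (3 * (360 * l)))) * 2 ^ (240000 * l)

/-- module PAR -/
def ST_PAR : Prop := ∀ l : ℕ, 1 ≤ l → (PP l).Ok (2 ^ l) (DD l)

/-- module STR: the letters of the hard string -/
def ST_STR : Prop := ∀ P : Pa,
  P.hard.length = P.tau P.Nst ∧
  (∀ i < P.Nst, ∀ x < P.len i, P.tau i + x < P.tau P.Nst ∧
    P.hard[P.tau i + x]? = some (P.letter i x)) ∧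
  (0 < P.D → ∀ a ∈ P.hard, 2 ≤ (a : ℕ))

/-- module BLK: lengths of the blocks and stages, seed words of consecutive blocks -/
def ST_BLK : Prop := ∀ (P : Pa) (K Δ n : ℕ), P.Ok K Δ → n ≤ K →
  P.S n 0 = 0 ∧ P.S n 1 = n ∧
  (∀ k, 1 ≤ k → P.S n k + P.ell 4 ≤ P.S n (k + 1) ∧ P.S n (k + 1) ≤ P.S n k + 2 * P.ell 4) ∧
  (∀ i, P.Lam ≤ P.len i ∧ P.D ∣ P.len i ∧ P.len i ≤ P.ell 4) ∧
  (∀ m, 1 ≤ m → (m - 1) % 3 ^ P.D ≠ 3 ^ P.D - 1 → P.sw (m + 1) = P.sw m) ∧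
  (∀ i, P.seed i = P.sw (i / P.nb + 1) ⟨i % 3, Nat.mod_lt _ (by norm_num)⟩)

/-- module DEC: the classes determine the block and the direction -/
def ST_DEC : Prop := ∀ P : Pa, 1 ≤ P.D → ∀ m i : ℕ, m < P.N → i / P.nb < P.N →
  P.cls (P.nb * m) = P.cls i →
  ((∀ g ≤ 4 * P.D + 2, P.cls (P.nb * m + 3 * g) = P.cls (i + 3 * g)) → i = P.nb * m) ∧
  (3 ≤ i → P.cls (P.nb * m + 3) ≠ P.cls (i - 3))

/-! ## Counting -/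

open Classical in
/-- module EB -/
def ST_EB : Prop := ∀ (Q : Type) [Fintype Q] (P : Pa) (M : Mc Q) (K : ℕ),
  Fintype.card Q ≤ K → 1 ≤ P.d →
  (univ.filter fun V => P.Eb M V).card ≤ 2 * (K * (3 * P.d) * 216 ^ P.d)

open Classical in
/-- module RC -/
def ST_RC : Prop := ∀ (Q : Type) [Fintype Q] (P : Pa) (M : Mc Q) (K : ℕ),
  Fintype.card Q ≤ K → 1 ≤ K → 1 ≤ P.D →
  (univ.filter fun x : P.Wd × P.Wd => P.Rel M x.1 x.2).card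
    ≤ 4 * K ^ 2 * P.D ^ 2 * 6 ^ (P.D + 4 * P.kap) ∧
  (univ.filter fun w : P.Wd => P.Blk M w).card ≤ 2 * K * P.D * 6 ^ (2 * P.kap)

open Classical in
/-- module GEN: few triples are not generic -/
def ST_GEN : Prop := ∀ (Q : Type) [Fintype Q] (P : Pa) (M : Mc Q) (K Δ : ℕ),
  Fintype.card Q ≤ K → P.Ok K Δ →
  1000 * (univ.filter fun w : Fin 3 → P.Wd => ¬ P.Gen M Δ w).card ≤ 27 ^ P.D

open Classical in
/-- module BAD: few blocks are bad -/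
def ST_BAD : Prop := ∀ (Q : Type) [Fintype Q] (P : Pa) (M : Mc Q) (K Δ : ℕ),
  Fintype.card Q ≤ K → P.Ok K Δ →
  900 * ((range (P.N + 1)).filter fun k => ¬ P.good M Δ k).card ≤ P.N + 1800

/-! ## Paths -/

/-- module PATH -/
def ST_PATH : Prop := ∀ (p : ℕ → ℤ) (d a b : ℕ), 1 ≤ d → a + 5 * d ≤ b →
  (∀ t, |p (t + 1) - p t| ≤ 1) →
  (∀ (t : ℕ) (l : ℤ), a ≤ t → t + 5 * d ≤ b → ∃ u, t ≤ u ∧ u < t + 5 * d ∧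
    ¬ (l ≤ p u ∧ p u < l + 3 * d)) →
  ∃ s : ℤ, (s = 1 ∨ s = -1) ∧ Stead p (3 * d) s a b

/-- module VIS -/
def ST_VIS : Prop := ∀ (p : ℕ → ℤ) (S : ℕ → ℕ) (good : ℕ → Prop) (L κ k : ℕ),
  (∀ t, |p (t + 1) - p t| ≤ 1) → S 0 = 0 → S 1 ≤ L →
  (∀ j, 1 ≤ j → S j + L ≤ S (j + 1) ∧ S (j + 1) ≤ S j + 2 * L) →
  100 * κ + 100 ≤ L → ¬ good 0 →
  (∀ a b, a ≤ b → (∀ j, a ≤ j → j ≤ b → good j) →
    ∃ s : ℤ, (s = 1 ∨ s = -1) ∧ Stead p κ s (S a) (S (b + 1))) →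
  14 ≤ k → (∀ j, k ≤ j + 13 → j ≤ k + 2 → good j) → Stead p κ 1 (S (k - 13)) (S (k + 3)) →
  (∀ l, Near good l → ∀ t, S (k - 13) ≤ t → t < S (k + 3) → ¬ Ev p S l t) →
  CaseV p S good κ k 1 ∨
    ((∀ z, Reg p S k 1 z → ∀ t < S (k - 13), p t ≠ z) ∧
      ∀ z, p (S (k - 13)) + κ < z → ∀ t < S (k - 13), p t ≠ z)

/-- module UPO -/
def ST_UPO : Prop := ∀ (p : ℕ → ℤ) (S : ℕ → ℕ) (good : ℕ → Prop) (L κ k : ℕ),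
  (∀ t, |p (t + 1) - p t| ≤ 1) → p 0 = 0 → S 0 = 0 → S 1 ≤ L →
  (∀ j, 1 ≤ j → S j + L ≤ S (j + 1) ∧ S (j + 1) ≤ S j + 2 * L) →
  100 * κ + 100 ≤ L → ¬ good 0 → (∀ t, S 1 ≤ t → p t < t) →
  14 ≤ k → (∀ j, k ≤ j + 13 → j ≤ k + 2 → good j) → Stead p κ 1 (S (k - 13)) (S (k + 3)) →
  (∀ l, Near good l → ∀ t, S (k - 13) ≤ t → t < S (k + 3) → ¬ EvP p S l t) →
  (∀ z, Reg p S k 1 z → ∀ t < S (k - 13), p t ≠ z) →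
  (∀ z, p (S (k - 13)) + κ < z → ∀ t < S (k - 13), p t ≠ z) →
  CaseU p S good k

open Classical in
/-- module CNT: there is a late block which is not touched by the events of bad blocks -/
def ST_CNT : Prop := ∀ (p : ℕ → ℤ) (S : ℕ → ℕ) (good : ℕ → Prop) (N : ℕ),
  StrictMonoOn S (Set.Ici 1) → S 0 ≤ S 1 → (∀ k, N < k → ¬ good k) → 10000 ≤ N →
  (∀ t, S 1 ≤ t → p t < t) →
  900 * ((range (N + 1)).filter fun k => ¬ good k).card ≤ N + 1800 →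
  ∃ k, N ≤ 2 * k ∧ 14 ≤ k ∧ k + 2 ≤ N ∧ (∀ j, k ≤ j + 13 → j ≤ k + 2 → good j) ∧
    ∀ l, Near good l → ∀ t, S (k - 13) ≤ t → t < S (k + 3) →
      ¬ Ev p S l t ∧ ¬ Ev (fun u => -p u) S l t ∧ ¬ EvP p S l t

open Classical in
/-- module SUPER -/
def ST_SUPER : Prop := ∀ (p : ℕ → ℤ) (S : ℕ → ℕ) (good : ℕ → Prop) (N L κ : ℕ),
  (∀ t, |p (t + 1) - p t| ≤ 1) → p 0 = 0 → S 0 = 0 → S 1 ≤ L →
  (∀ j, 1 ≤ j → S j + L ≤ S (j + 1) ∧ S (j + 1) ≤ S j + 2 * L) →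
  100 * κ + 100 ≤ L → ¬ good 0 → (∀ k, N < k → ¬ good k) → (∀ t, S 1 ≤ t → p t < t) →
  10000 ≤ N → 900 * ((range (N + 1)).filter fun k => ¬ good k).card ≤ N + 1800 →
  (∀ a b, a ≤ b → (∀ j, a ≤ j → j ≤ b → good j) →
    ∃ s : ℤ, (s = 1 ∨ s = -1) ∧ Stead p κ s (S a) (S (b + 1))) →
  ∃ k, N ≤ 2 * k ∧ 14 ≤ k ∧ k + 2 ≤ N ∧ (∀ j, k ≤ j + 13 → j ≤ k + 2 → good j) ∧
    ∃ s : ℤ, (s = 1 ∨ s = -1) ∧ Stead p κ s (S (k - 13)) (S (k + 3)) ∧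
      (CaseV p S good κ k s ∨ (s = 1 ∧ CaseU p S good k) ∨
        (s = -1 ∧ ∀ z, Reg p S k (-1) z → z < 0 ∧ ∀ t < S (k - 13), p t ≠ z))

/-- module MATCH: two partitions of an interval with compatible overlaps -/
def ST_MATCH : Prop := ∀ (Λ β : ℤ) (ell : ℕ → ℤ) (x y : ℤ → ℤ) (cx cy : ℤ → ℕ) (i₀ i₁ j₀ j₁ : ℤ)
    (r s : ℤ),
  0 < β → 100 * β ≤ Λ → ell 0 = Λ → (∀ c c' : ℕ, c < c' → c' ≤ 4 → 100 * ell c ≤ ell c') →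
  (∀ i, cx i ≤ 4) → (∀ j, cy j ≤ 4) →
  (∀ i, i₀ ≤ i → i ≤ i₁ → (cx i ≠ 0 ↔ (3 : ℤ) ∣ i - r)) →
  (∀ j, j₀ ≤ j → j ≤ j₁ → (cy j ≠ 0 ↔ (3 : ℤ) ∣ j - s)) →
  (∀ i, i₀ ≤ i → i ≤ i₁ → ell (cx i) ≤ 6 * (x (i + 1) - x i) ∧ x (i + 1) - x i ≤ ell (cx i)) →
  (∀ j, j₀ ≤ j → j ≤ j₁ → y j ≤ y (j + 1)) →
  (∀ j, j₀ ≤ j → j ≤ j₁ → x i₀ ≤ y j → y (j + 1) ≤ x (i₁ + 1) →
    ell (cy j) ≤ 6 * (y (j + 1) - y j) ∧ y (j + 1) - y j ≤ ell (cy j)) →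
  y j₀ ≤ x i₀ → x (i₁ + 1) ≤ y (j₁ + 1) → j₀ ≤ j₁ →
  (∀ i j, i₀ ≤ i → i + 2 ≤ i₁ → j₀ ≤ j → j ≤ j₁ →
    ¬ ∀ e : ℤ, 0 ≤ e → e ≤ 2 → β ≤ min (x (i + e + 1)) (y (j + 1)) - max (x (i + e)) (y j)) →
  (∀ i j, i₀ ≤ i → i ≤ i₁ → j₀ ≤ j → j + 2 ≤ j₁ →
    ¬ ∀ e : ℤ, 0 ≤ e → e ≤ 2 → β ≤ min (x (i + 1)) (y (j + e + 1)) - max (x i) (y (j + e))) →
  ∀ i, i₀ + 3 ≤ i → cx i ≠ 0 →
    ∃ j, ∀ g : ℤ, 0 ≤ g → i + 3 * g + 3 ≤ i₁ →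
      j₀ < j + 3 * g ∧ j + 3 * g < j₁ ∧ cy (j + 3 * g) = cx (i + 3 * g) ∧
      |y (j + 3 * g) - x (i + 3 * g)| ≤ 2 * Λ

/-! ## Machines -/

section
variable {Q : Type}

/-- the run is periodic on the times `[a, b)`, with the word `w` -/
def PerOut (P : Pa) (M : Mc Q) (c : ℕ → Cf Q) (w : P.Wd) (a b : ℕ) : Prop :=
  ∀ t, a ≤ t → t < b → ∀ h : 0 < P.D, M.out (c t) = em (w ⟨(t - a) % P.D, Nat.mod_lt _ h⟩)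

end

/-- module READ: the pass reading the cells `[u, u + D)` -/
def ST_READ : Prop := ∀ (Q : Type) (P : Pa) (M : Mc Q) (c : ℕ → Cf Q) (t₀ a b t₃ : ℕ) (u : ℤ)
    (w : P.Wd),
  (∀ t, c (t + 1) = M.step (c t)) → 1 ≤ P.D → t₀ < a → b ≤ t₃ →
  Stead (fun t => (c t).p) P.kap 1 t₀ t₃ → PerOut P M c w a b →
  (∀ t, t₀ ≤ t → t < a → (c t).p < u) →
  (∃ t, a ≤ t ∧ t < b ∧ u + P.D + P.kap ≤ (c t).p) →
  ∃ c' : Cf Q, c'.p = u ∧ P.Win M c' P.D ∧ P.Rot w (fun x => M.out (M.run c' x)) ∧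
    ∀ x : ℤ, 0 ≤ x → x < P.D → c'.T (u + x) = (c t₀).T (u + x)

/-- module LAID: the content left behind on the cells `[u, u + D)` by a steady motion to the left -/
def ST_LAID : Prop := ∀ (Q : Type) (P : Pa) (M : Mc Q) (c : ℕ → Cf Q) (A a b B t₀ : ℕ) (u : ℤ)
    (w : P.Wd),
  (∀ t, c (t + 1) = M.step (c t)) → 1 ≤ P.D → A ≤ a → b ≤ B → B ≤ t₀ →
  Stead (fun t => (c t).p) P.kap (-1) A B → PerOut P M c w a b →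
  (∃ t, a ≤ t ∧ t < B ∧ u + P.D + P.kap ≤ (c t).p) →
  (∃ t, A ≤ t ∧ t < b ∧ (c t).p ≤ u - P.kap - 1) →
  (∀ t, B ≤ t → t < t₀ → ∀ x : ℤ, 0 ≤ x → x < P.D → (c t).p ≠ u + x) →
  P.Laid M.mir w (fun x => (c t₀).T (u + ((P.D : ℤ) - 1 - x)))

/-- module STEADY: motion during good blocks -/
def ST_STEADY : Prop := ∀ (Q : Type) (P : Pa) (K Δ n : ℕ) (M : Mc Q) (c : ℕ → Cf Q),
  P.Ok K Δ → n ≤ K → P.Run M c n → ∀ a b, a ≤ b →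
  (∀ j, a ≤ j → j ≤ b → P.good M Δ j) →
  ∃ s : ℤ, (s = 1 ∨ s = -1) ∧ Stead (fun t => (c t).p) P.kap s (P.S n a) (P.S n (b + 1))

/-- module CLV: the visited case is impossible -/
def ST_CLV : Prop := ∀ (Q : Type) (P : Pa) (K Δ n k : ℕ) (M : Mc Q) (c : ℕ → Cf Q),
  P.Ok K Δ → n ≤ K → P.Run M c n → 14 ≤ k → k + 2 ≤ P.N →
  (∀ j, k ≤ j + 13 → j ≤ k + 2 → P.good M Δ j) →
  Stead (fun t => (c t).p) P.kap 1 (P.S n (k - 13)) (P.S n (k + 3)) →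
  ¬ CaseV (fun t => (c t).p) (P.S n) (P.good M Δ) P.kap k 1

/-- module CLU: in the unvisited case the delay is small -/
def ST_CLU : Prop := ∀ (Q : Type) (P : Pa) (K Δ n k : ℕ) (M : Mc Q) (c : ℕ → Cf Q),
  P.Ok K Δ → n ≤ K → P.Sit M c n → 14 ≤ k → k + 2 ≤ P.N →
  (∀ j, k ≤ j + 13 → j ≤ k + 2 → P.good M Δ j) →
  Stead (fun t => (c t).p) P.kap 1 (P.S n (k - 13)) (P.S n (k + 3)) →
  CaseU (fun t => (c t).p) (P.S n) (P.good M Δ) k →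
  (P.S n (k + 1) : ℤ) ≤ (c (P.S n (k + 1))).p + 3 * P.Lam

/-- module CLB: a good motion cannot pass over blank cells -/
def ST_CLB : Prop := ∀ (Q : Type) (P : Pa) (K Δ n k : ℕ) (M : Mc Q) (c : ℕ → Cf Q),
  P.Ok K Δ → n ≤ K → P.Run M c n → 14 ≤ k → k + 2 ≤ P.N →
  (∀ j, k ≤ j + 13 → j ≤ k + 2 → P.good M Δ j) →
  Stead (fun t => (c t).p) P.kap 1 (P.S n (k - 13)) (P.S n (k + 3)) →
  ¬ ∀ z, Reg (fun t => (c t).p) (P.S n) k 1 z → (c (P.S n (k - 13))).T z = none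

/-- module PURE: a good block with moves to the right only -/
def ST_PURE : Prop := ∀ (Q : Type) [Fintype Q] (P : Pa) (K Δ n k : ℕ) (M : Mc Q) (c : ℕ → Cf Q),
  P.Ok K Δ → Fintype.card Q ≤ K → n ≤ K → P.Sit M c n → P.N ≤ 2 * k → k ≤ P.N →
  (P.S n k : ℤ) ≤ (c (P.S n k)).p + 3 * P.Lam →
  ∃ j, P.good M Δ j ∧ j < k ∧ (P.S n j : ℤ) ≤ (c (P.S n j)).p + 3 * P.Lam ∧
    ∀ t, P.S n j ≤ t → t < P.S n (j + 1) → (c (t + 1)).p = (c t).p + 1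

/-- module AUT: impossible -/
def ST_AUT : Prop := ∀ (Q : Type) [Fintype Q] (P : Pa) (K Δ n j : ℕ) (M : Mc Q) (c : ℕ → Cf Q),
  P.Ok K Δ → Fintype.card Q ≤ K → n ≤ K → P.Sit M c n → P.good M Δ j →
  (P.S n j : ℤ) ≤ (c (P.S n j)).p + 3 * P.Lam →
  ¬ ∀ t, P.S n j ≤ t → t < P.S n (j + 1) → (c (t + 1)).p = (c t).p + 1

/-- module CORE -/
def ST_CORE : Prop := ∀ (Q : Type) [Fintype Q] (P : Pa) (K Δ n : ℕ) (M : Mc Q) (c : ℕ → Cf Q),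
  P.Ok K Δ → Fintype.card Q ≤ K → n ≤ K → ¬ P.Sit M c n

/-- module LB: the lower bound -/
def ST_LB : Prop := ∀ (Q : Type) [Fintype Q] (M : Mc Q) (q : Q) (l : ℕ) (x y : List (Fin 5)),
  1 ≤ l → Fintype.card Q ≤ 2 ^ l → x.length = y.length → x.length ≤ 2 ^ l →
  (∀ t < (y ++ (PP l).hard).length,
    (y ++ (PP l).hard)[t]? = some (M.out (M.run ⟨q, 0, fun z => if z < 0 then none else
      (x ++ (PP l).hard)[z.toNat]?⟩ t))) →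
  (M.run ⟨q, 0, fun z => if z < 0 then none else (x ++ (PP l).hard)[z.toNat]?⟩ x.length).p
    = x.length

end Pool.Agent.Helper82.EN
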