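import Pool.Agent.Helper82.EN.Prob
import Pool.Agent.Helper82.EN.Stmts
import Pool.Agent.Helper53.CL.Bridge

set_option autoImplicit false

/-! # ENCODING BY TM: statements of the modules about the reduction -/

namespace Pool.Agent.Helper82.EN

open Pool.Agent.Helper58 (PTf)
open Pool.Agent.Helper53.CL (Nae)

/-! ## Not-all-equal satisfiability and 3-colourings -/

/-- number of variables -/
def nvar (l : List (ℕ × ℕ × ℕ)) : ℕ := (l.map fun t => t.1 + t.2.1 + t.2.2 + 1).sum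

/-- the edges: the vertex `0` is joined to the variables `1 + a`; the clause `i` is a triangle
`v, v + 1, v + 2` joined to its variables -/
def edges (l : List (ℕ × ℕ × ℕ)) : List (ℕ × ℕ) :=
  ((List.range (nvar l)).map fun a => (0, 1 + a)) ++
  l.zipIdx.flatMap fun t =>
    [(1 + nvar l + 3 * t.2, 1 + nvar l + 3 * t.2 + 1),
     (1 + nvar l + 3 * t.2 + 1, 1 + nvar l + 3 * t.2 + 2),
     (1 + nvar l + 3 * t.2, 1 + nvar l + 3 * t.2 + 2),
     (1 + nvar l + 3 * t.2, 1 + t.1.1),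
     (1 + nvar l + 3 * t.2 + 1, 1 + t.1.2.1),
     (1 + nvar l + 3 * t.2 + 2, 1 + t.1.2.2)]

/-- number of vertices -/
def nver (l : List (ℕ × ℕ × ℕ)) : ℕ := 1 + nvar l + 3 * l.length

/-- 3-colourability -/
def Col (E : List (ℕ × ℕ)) : Prop := ∃ c : ℕ → Fin 3, ∀ e ∈ E, c e.1 ≠ c e.2

/-- module COL -/
def ST_COL : Prop := ∀ l : List (ℕ × ℕ × ℕ),
  ((∃ h : ℕ → Bool, ∀ t ∈ l, Nae h t) ↔ Col (edges l)) ∧
  ∀ e ∈ edges l, e.1 < nver l ∧ e.2 < nver l

/-! ## 3-colourings and transducers -/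

/-- number of states -/
def nst (V : ℕ) (E : List (ℕ × ℕ)) : ℕ := V + 3 * (E.length + 1) + 1

/-- the output on `N` zeros, from the first state on -/
def wz (V : ℕ) (E : List (ℕ × ℕ)) : List (Fin 5) :=
  List.replicate V 0 ++ (2 :: List.replicate E.length 0) ++ (2 :: List.replicate E.length 0) ++
    (2 :: List.replicate E.length 0) ++ [1]

/-- input of the test of the vertex `u` at the offset `i + 1` -/
def tin (N u i : ℕ) : List (Fin 5) :=
  List.replicate u 0 ++ 1 :: (List.replicate (i + 1) 0 ++ 1 :: List.replicate N 0)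

/-- output of the test of the vertex `u` at the offset `i + 1`, with the answer `b` -/
def tou (w : List (Fin 5)) (u i : ℕ) (b : Fin 5) : List (Fin 5) :=
  List.replicate u 0 ++ 0 :: ((2 :: List.replicate i 0) ++ b :: w)

/-- the input word -/
def xs (V : ℕ) (E : List (ℕ × ℕ)) : List (Fin 5) :=
  List.replicate (2 * nst V E) 0 ++
    E.zipIdx.flatMap fun e => tin (nst V E) e.1.1 e.2 ++ tin (nst V E) e.1.2 e.2

/-- the output word -/
def ys (V : ℕ) (E : List (ℕ × ℕ)) : List (Fin 5) :=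
  wz V E ++ wz V E ++
    E.zipIdx.flatMap fun e => tou (wz V E) e.1.1 e.2 3 ++ tou (wz V E) e.1.2 e.2 4

/-- module FSTC -/
def ST_FSTC : Prop := ∀ (V : ℕ) (E : List (ℕ × ℕ)), (∀ e ∈ E, e.1 < V ∧ e.2 < V) →
  (EncFST (xs V E, ys V E, nst V E) ↔ Col E) ∧
  (xs V E).length = (ys V E).length ∧ ∀ a ∈ xs V E, (a : ℕ) ≤ 1

/-! ## Transducers and Turing machines -/

/-- module GL1 -/
def ST_GL1 : Prop := ∀ (x y h : List (Fin 5)) (k : ℕ), (∀ a ∈ x, (a : ℕ) ≤ 1) →
  (∀ a ∈ h, 2 ≤ (a : ℕ)) → EncFST (x, y, k) → EncFST (x ++ h, y ++ h, k)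

/-- module GL2 -/
def ST_GL2 : Prop := ∀ (I : Inst), (EncTMHalt I → EncTM I) ∧ (EncFST I → EncTMHalt I)

/-- module GL3 -/
def ST_GL3 : Prop := ST_LB → ∀ (x y : List (Fin 5)) (k l : ℕ), 1 ≤ l → x.length = y.length →
  x.length ≤ 2 ^ l → k ≤ 2 ^ l → EncTM (x ++ (PP l).hard, y ++ (PP l).hard, k) → EncFST (x, y, k)

/-! ## Polynomial time -/

/-- the exponent used for the bound `m` -/
def lg (m : ℕ) : ℕ := Nat.size m + 1

/-- module PTH: the hard string is computable in polynomial time (natural numbers in unary) -/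
def ST_PTH : Prop := PTf (fun m : ℕ => (PP (lg m)).hard.map Fin.val)

/-- module PTR -/
def ST_PTR : Prop := PTf (fun l : List (ℕ × ℕ × ℕ) => (xs (nver l) (edges l)).map Fin.val) ∧
  PTf (fun l : List (ℕ × ℕ × ℕ) => (ys (nver l) (edges l)).map Fin.val) ∧
  PTf (fun l : List (ℕ × ℕ × ℕ) => nst (nver l) (edges l))

/-- module MEM: membership in NP -/
def ST_MEM : Prop := Pool.Agent.Helper52.Poly.InNP EncTM ∧ Pool.Agent.Helper52.Poly.InNP EncTMHalt

/-- module RED: the reduction -/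
def ST_RED : Prop := ST_LB → ST_COL → ST_FSTC → ST_GL1 → ST_GL2 → ST_GL3 → ST_PTH → ST_PTR →
  ST_STR → ∀ L : Inst → Prop, (∀ I, EncFST I → L I) → (∀ I, L I → EncTM I) → NPHard L

end Pool.Agent.Helper82.EN
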